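import Pool.Agent.Lib.MP_ed6522_an.Defs

/-!
# Closed chains of segments and closed leaves
-/

set_option autoImplicit false

open Set Topology Filter

namespace Pool.Agent.Lib.MP_ed6522_an

/-- A closed chain of `N` segments in direction `u`, each contained in a chart, with nontrivial
holonomy. -/
structure Chain (X : AffSurf) (u : ℂ) where
  N : ℕ
  e : ℕ → OpenPartialHomeomorph X.carrier ℂ
  x : ℕ → X.carrier
  r : ℕ → ℝ
  a : ℕ → ℝ
  c : ℕ → ℂ
  N_pos : 0 < N
  e_N : e N = e 0
  x_N : x N = x 0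
  mem_atlas : ∀ j < N, e j ∈ X.atlas
  r_pos : ∀ j < N, 0 < r j
  mem_left : ∀ j < N, x j ∈ (e j).source
  mem_right : ∀ j < N, x (j + 1) ∈ (e j).source
  step : ∀ j < N, e j (x (j + 1)) = e j (x j) + r j * u
  seg : ∀ j < N, ∀ t ∈ Icc (0 : ℝ) (r j), e j (x j) + t * u ∈ (e j).target
  a_pos : ∀ j < N, 0 < a j
  trans : ∀ j < N, ∀ᶠ y in 𝓝 (x (j + 1)), e (j + 1) y = a j * e j y + c j
  hol : ∏ j ∈ Finset.range N, a j ≠ 1

namespace Chain

variable {X : AffSurf} {u : ℂ} (C : Chain X u)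

theorem mem_atlas' (j : ℕ) (hj : j ≤ C.N) : C.e j ∈ X.atlas := by
  rcases hj.lt_or_eq with h | h
  · exact C.mem_atlas j h
  · rw [h, C.e_N]; exact C.mem_atlas 0 C.N_pos

theorem mem_left' (j : ℕ) (hj : j ≤ C.N) : C.x j ∈ (C.e j).source := by
  rcases hj.lt_or_eq with h | h
  · exact C.mem_left j h
  · rw [h, C.e_N, C.x_N]; exact C.mem_left 0 C.N_pos

/-- The `j`-th segment of the chain as a subset of the surface. -/
def segSet (j : ℕ) : Set X.carrier :=
  (fun t : ℝ => (C.e j).symm (C.e j (C.x j) + t * u)) '' Icc (0 : ℝ) (C.r j)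

/-- The closed leaf. -/
def Z : Set X.carrier := ⋃ j ∈ Finset.range C.N, C.segSet j

theorem segSet_subset (j : ℕ) (hj : j < C.N) : C.segSet j ⊆ C.Z := by
  intro y hy
  simp only [Z, Finset.mem_range, mem_iUnion]
  exact ⟨j, hj, hy⟩

theorem mem_Z {y : X.carrier} : y ∈ C.Z ↔ ∃ j < C.N, y ∈ C.segSet j := by
  simp only [Z, Finset.mem_range, mem_iUnion, exists_prop]

theorem segSet_compact (j : ℕ) (hj : j < C.N) : IsCompact (C.segSet j) := by
  apply isCompact_Icc.image_of_continuousOn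
  apply (C.e j).continuousOn_symm.comp
  · fun_prop
  · intro t ht
    exact C.seg j hj t ht

theorem segSet_source (j : ℕ) (hj : j < C.N) : C.segSet j ⊆ (C.e j).source := by
  rintro y ⟨t, ht, rfl⟩
  exact (C.e j).map_target (C.seg j hj t ht)

theorem Z_compact : IsCompact C.Z := by
  apply Finset.isCompact_biUnion
  intro j hj
  exact C.segSet_compact j (Finset.mem_range.1 hj)

theorem Z_closed : IsClosed C.Z := C.Z_compact.isClosed

theorem Z_regular : ∀ y ∈ C.Z, y ∉ X.sing := by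
  intro y hy
  obtain ⟨j, hj, hyj⟩ := C.mem_Z.1 hy
  exact X.avoid _ (C.mem_atlas j hj) y (C.segSet_source j hj hyj)

theorem x_mem_segSet (j : ℕ) (hj : j < C.N) : C.x j ∈ C.segSet j := by
  refine ⟨0, ⟨le_rfl, (C.r_pos j hj).le⟩, ?_⟩
  simp [(C.e j).left_inv (C.mem_left j hj)]

theorem x_mem_Z (j : ℕ) (hj : j < C.N) : C.x j ∈ C.Z :=
  C.segSet_subset j hj (C.x_mem_segSet j hj)

end Chain

/-- Transfer of `moving along the line` between charts. -/
theorem line_iff (X : AffSurf) (u : ℂ) {e e' : OpenPartialHomeomorph X.carrier ℂ}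
    (he : e ∈ X.atlas) (he' : e' ∈ X.atlas) {y : X.carrier} (hy : y ∈ e.source)
    (hy' : y ∈ e'.source) :
    ∀ᶠ z in 𝓝 y, ((∃ r : ℝ, e z = e y + r * u) ↔ ∃ r : ℝ, e' z = e' y + r * u) := by
  obtain ⟨a, ha, c, hc⟩ := X.compat e he e' he' y hy hy'
  have ha' : (a : ℂ) ≠ 0 := by exact_mod_cast ha.ne'
  filter_upwards [hc] with z hz
  have hy0 := hc.self_of_nhds
  rw [hz, hy0]
  constructor
  · rintro ⟨r, hr⟩
    refine ⟨a * r, ?_⟩
    rw [hr]; push_cast; ring
  · rintro ⟨r, hr⟩
    refine ⟨a⁻¹ * r, ?_⟩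
    have : (a : ℂ) * (e z - e y) = r * u := by linear_combination hr
    have h2 : e z - e y = (a : ℂ)⁻¹ * (r * u) := by
      rw [← this]; field_simp
    push_cast
    linear_combination h2

namespace Chain

variable {X : AffSurf} {u : ℂ} (C : Chain X u)

/-- Near a point of `Z`, points of `Z` lie on the line through the point. -/
theorem Z_subset_line (y : X.carrier) {e : OpenPartialHomeomorph X.carrier ℂ}
    (he : e ∈ X.atlas) (hye : y ∈ e.source) :
    ∀ᶠ z in 𝓝 y, z ∈ C.Z → ∃ r : ℝ, e z = e y + r * u := by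
  have h1 : ∀ j ∈ Finset.range C.N, ∀ᶠ z in 𝓝 y, z ∈ C.segSet j → ∃ r : ℝ, e z = e y + r * u := by
    intro j hj
    have hj' := Finset.mem_range.1 hj
    by_cases hyj : y ∈ C.segSet j
    · filter_upwards [line_iff X u (C.mem_atlas j hj') he (C.segSet_source j hj' hyj) hye]
        with z hz hzj
      apply hz.1
      obtain ⟨t, ht, rfl⟩ := hyj
      obtain ⟨t', ht', rfl⟩ := hzj
      simp only
      rw [(C.e j).right_inv (C.seg j hj' t ht), (C.e j).right_inv (C.seg j hj' t' ht')]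
      refine ⟨t' - t, ?_⟩
      push_cast; ring
    · have : (C.segSet j)ᶜ ∈ 𝓝 y := (C.segSet_compact j hj').isClosed.isOpen_compl.mem_nhds hyj
      filter_upwards [this] with z hz hzj
      exact absurd hzj hz
  have h2 := (Finset.eventually_all (C.N |> Finset.range)).2 h1
  filter_upwards [h2] with z hz hzZ
  obtain ⟨j, hj, hzj⟩ := C.mem_Z.1 hzZ
  exact hz j (Finset.mem_range.2 hj) hzj

/-- Auxiliary: points near `y = e.symm (p + t u)` on the line have a parameter close to `t`. -/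
theorem aux_small (hu : u ≠ 0) {e : OpenPartialHomeomorph X.carrier ℂ} {y : X.carrier}
    (hy : y ∈ e.source) {δ : ℝ} (hδ : 0 < δ) :
    ∀ᶠ z in 𝓝 y, ∀ s : ℝ, e z = e y + s * u → |s| < δ := by
  have hcont : ContinuousAt e y := e.continuousAt hy
  have hu' : 0 < ‖u‖ := norm_pos_iff.2 hu
  have := Metric.continuousAt_iff'.1 hcont (δ * ‖u‖) (by positivity)
  filter_upwards [this] with z hz s hs
  rw [hs, dist_eq_norm, add_sub_cancel_left, norm_mul, Complex.norm_real, Real.norm_eq_abs] at hz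
  exact lt_of_mul_lt_mul_right hz hu'.le

/-- To the right of `x j`. -/
theorem right_side (hu : u ≠ 0) (j : ℕ) (hj : j ≤ C.N) :
    ∀ᶠ z in 𝓝 (C.x j), ∀ s : ℝ, 0 ≤ s → C.e j z = C.e j (C.x j) + s * u → z ∈ C.Z := by
  have key : ∀ j < C.N, ∀ᶠ z in 𝓝 (C.x j), ∀ s : ℝ, 0 ≤ s →
      C.e j z = C.e j (C.x j) + s * u → z ∈ C.Z := by
    intro j hj
    filter_upwards [aux_small hu (C.mem_left j hj) (C.r_pos j hj),
      (C.e j).open_source.mem_nhds (C.mem_left j hj)] with z hz hzs s hs hzs'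
    have h1 := hz s hzs'
    apply C.segSet_subset j hj
    refine ⟨s, ⟨hs, (le_abs_self s).trans h1.le⟩, ?_⟩
    simp only
    rw [← hzs', (C.e j).left_inv hzs]
  rcases hj.lt_or_eq with h | h
  · exact key j h
  · rw [h, C.e_N, C.x_N]; exact key 0 C.N_pos

/-- To the left of `x (j + 1)`. -/
theorem left_side (hu : u ≠ 0) (j : ℕ) (hj : j < C.N) :
    ∀ᶠ z in 𝓝 (C.x (j + 1)), ∀ s : ℝ, s ≤ 0 →
      C.e j z = C.e j (C.x (j + 1)) + s * u → z ∈ C.Z := by
  filter_upwards [aux_small hu (C.mem_right j hj) (C.r_pos j hj),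
    (C.e j).open_source.mem_nhds (C.mem_right j hj)] with z hz hzs s hs hzs'
  have h1 := hz s hzs'
  apply C.segSet_subset j hj
  have h2 := abs_lt.1 h1
  refine ⟨C.r j + s, ⟨by linarith [h2.1], by linarith⟩, ?_⟩
  simp only
  rw [C.step j hj] at hzs'
  have : C.e j (C.x j) + ((C.r j + s : ℝ) : ℂ) * u = C.e j z := by
    rw [hzs']; push_cast; ring
  rw [this, (C.e j).left_inv hzs]

/-- Near a junction point, the whole line is contained in `Z`. -/
theorem line_subset_Z_junction (hu : u ≠ 0) (j : ℕ) (hj : j < C.N) :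
    ∀ᶠ z in 𝓝 (C.x (j + 1)), (∃ s : ℝ, C.e j z = C.e j (C.x (j + 1)) + s * u) → z ∈ C.Z := by
  have h0 := (C.trans j hj).self_of_nhds
  filter_upwards [C.left_side hu j hj, C.right_side hu (j + 1) hj, C.trans j hj]
    with z h1 h2 h3 ⟨s, hs⟩
  rcases le_total s 0 with h | h
  · exact h1 s h hs
  · apply h2 (C.a j * s) (mul_nonneg (C.a_pos j hj).le h)
    rw [h3, h0, hs]; push_cast; ring

/-- Near every point of `Z`, the line through that point is contained in `Z`. -/
theorem line_subset_Z (hu : u ≠ 0) {y : X.carrier} (hy : y ∈ C.Z)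
    {e : OpenPartialHomeomorph X.carrier ℂ} (he : e ∈ X.atlas) (hye : y ∈ e.source) :
    ∀ᶠ z in 𝓝 y, (∃ r : ℝ, e z = e y + r * u) → z ∈ C.Z := by
  -- it suffices to prove it in one chart
  have red : (∃ e' ∈ X.atlas, y ∈ e'.source ∧
      ∀ᶠ z in 𝓝 y, (∃ r : ℝ, e' z = e' y + r * u) → z ∈ C.Z) →
      ∀ᶠ z in 𝓝 y, (∃ r : ℝ, e z = e y + r * u) → z ∈ C.Z := by
    rintro ⟨e', he', hye', h⟩
    filter_upwards [h, line_iff X u he he' hye hye'] with z hz hz' hr
    exact hz (hz'.1 hr)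
  apply red
  obtain ⟨j, hj, t, ht, rfl⟩ := C.mem_Z.1 hy
  rcases eq_or_lt_of_le ht.1 with h0 | h0
  · -- `y = x j`
    have hyx : (C.e j).symm (C.e j (C.x j) + t * u) = C.x j := by
      rw [← h0]; simp [(C.e j).left_inv (C.mem_left j hj)]
    simp only
    rw [hyx]
    rcases Nat.eq_zero_or_pos j with hj0 | hj0
    · obtain ⟨m, hm⟩ : ∃ m, C.N = m + 1 := ⟨C.N - 1, by have := C.N_pos; omega⟩
      have hm' : m < C.N := by omega
      have := C.line_subset_Z_junction hu m hm'
      rw [← hm, C.x_N, ← hj0] at this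
      refine ⟨C.e m, C.mem_atlas m hm', ?_, this⟩
      have h2 := C.mem_right m hm'
      rwa [← hm, C.x_N, ← hj0] at h2
    · obtain ⟨m, rfl⟩ : ∃ m, j = m + 1 := ⟨j - 1, by omega⟩
      have hm' : m < C.N := by omega
      exact ⟨C.e m, C.mem_atlas m hm', C.mem_right m hm', C.line_subset_Z_junction hu m hm'⟩
  rcases eq_or_lt_of_le ht.2 with h1 | h1
  · have hyx : (C.e j).symm (C.e j (C.x j) + t * u) = C.x (j + 1) := by
      rw [h1, ← C.step j hj]; simp [(C.e j).left_inv (C.mem_right j hj)]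
    simp only
    rw [hyx]
    exact ⟨C.e j, C.mem_atlas j hj, C.mem_right j hj, C.line_subset_Z_junction hu j hj⟩
  · -- interior point
    have hsrc := (C.e j).map_target (C.seg j hj t ht)
    refine ⟨C.e j, C.mem_atlas j hj, hsrc, ?_⟩
    have hδ : 0 < min t (C.r j - t) := lt_min h0 (by linarith)
    filter_upwards [aux_small hu hsrc hδ, (C.e j).open_source.mem_nhds hsrc] with z hz hzs ⟨s, hs⟩
    have h3 := hz s hs
    have h4 := abs_lt.1 h3
    have h5 := min_le_left t (C.r j - t)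
    have h6 := min_le_right t (C.r j - t)
    apply C.segSet_subset j hj
    refine ⟨t + s, ⟨by linarith [h4.1], by linarith [h4.2]⟩, ?_⟩
    simp only
    rw [(C.e j).right_inv (C.seg j hj t ht)] at hs
    have : C.e j (C.x j) + ((t + s : ℝ) : ℂ) * u = C.e j z := by
      rw [hs]; push_cast; ring
    rw [this, (C.e j).left_inv hzs]

/-- Leaves through points of `Z` stay in `Z`. The leaf may be taken in any direction `v` such that
lines parallel to `v` are the lines parallel to `u`. -/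
theorem leaf_subset (hu : u ≠ 0) {v : ℂ} (huv : ∀ r : ℝ, ∃ r' : ℝ, r * v = r' * u)
    {y : X.carrier} (hy : y ∈ C.Z) : leaf X v y ⊆ C.Z := by
  rintro z ⟨γ, hγ⟩
  have hcl : IsClopen {t : unitInterval | γ t ∈ C.Z} := by
    constructor
    · exact C.Z_closed.preimage γ.continuous
    · rw [isOpen_iff_mem_nhds]
      intro t ht
      obtain ⟨hreg, hline⟩ := hγ t
      obtain ⟨e, he, hte⟩ := X.cover _ hreg
      have h1 := hline e he hte
      have h2 := C.line_subset_Z hu ht he hte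
      have h3 := (γ.continuous.tendsto t).eventually h2
      filter_upwards [h1, h3] with s hs1 hs2
      obtain ⟨r, hr⟩ := hs1
      obtain ⟨r', hr'⟩ := huv r
      exact hs2 ⟨r', by rw [hr, hr']⟩
  have huniv : {t : unitInterval | γ t ∈ C.Z} = univ := by
    rcases isClopen_iff.1 hcl with h | h
    · exfalso
      have : (0 : unitInterval) ∈ {t : unitInterval | γ t ∈ C.Z} := by
        simp only [mem_ofPred_eq, γ.source]; exact hy
      rw [h] at this
      exact this
    · exact h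
  have : (1 : unitInterval) ∈ {t : unitInterval | γ t ∈ C.Z} := by rw [huniv]; trivial
  simpa only [mem_ofPred_eq, γ.target] using this

/-- `I * u` is transverse. -/
theorem transverse (hu : u ≠ 0) {v : ℂ} (huv : ∀ r : ℝ, ∃ r' : ℝ, r * v = r' * u)
    (hv : v ≠ 0) (s r : ℝ) (h : (s : ℂ) * (Complex.I * v) = r * u) : s = 0 := by
  obtain ⟨k, hk⟩ := huv 1
  have hk' : v = k * u := by simpa using hk
  have hk0 : (k : ℂ) ≠ 0 := by
    rintro h0; apply hv; rw [hk', h0, zero_mul]
  rw [hk'] at h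
  have h1 : (s : ℂ) * (Complex.I * k) = r := by
    have : ((s : ℂ) * (Complex.I * k)) * u = r * u := by linear_combination h
    exact mul_right_cancel₀ hu this
  have h2 := congrArg Complex.im h1
  simp at h2
  rcases h2 with h2 | h2
  · exact h2
  · exfalso; apply hk0; rw [h2]; simp

theorem Z_ne_univ (hu : u ≠ 0) : C.Z ≠ univ := by
  intro h
  have hx := C.x_mem_Z 0 C.N_pos
  have he := C.mem_atlas 0 C.N_pos
  have hs := C.mem_left 0 C.N_pos
  have h1 := C.Z_subset_line (C.x 0) he hs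
  rw [h] at h1
  -- transport to the target
  set e := C.e 0 with he0
  have ht : e (C.x 0) ∈ e.target := e.map_source hs
  have hsymm : ContinuousAt e.symm (e (C.x 0)) := e.continuousAt_symm ht
  have hcurve : ContinuousAt (fun s : ℝ => e.symm (e (C.x 0) + s * (Complex.I * u))) 0 := by
    have h2 : ContinuousAt (fun s : ℝ => e (C.x 0) + s * (Complex.I * u)) 0 := by fun_prop
    apply ContinuousAt.comp (g := e.symm) _ h2
    simpa using hsymm
  have h3 : ∀ᶠ s : ℝ in 𝓝 0, ∃ r : ℝ, e (e.symm (e (C.x 0) + s * (Complex.I * u))) =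
      e (C.x 0) + r * u := by
    have h4 := hcurve.tendsto
    simp only [Complex.ofReal_zero, zero_mul, add_zero, e.left_inv hs] at h4
    filter_upwards [h4.eventually h1] with s hs'
    exact hs' (mem_univ _)
  have h5 : ∀ᶠ s : ℝ in 𝓝 0, e (C.x 0) + s * (Complex.I * u) ∈ e.target := by
    have h2 : ContinuousAt (fun s : ℝ => e (C.x 0) + s * (Complex.I * u)) 0 := by fun_prop
    apply h2.eventually_mem
    simpa using e.open_target.mem_nhds ht
  have h6 := h3.and h5
  obtain ⟨s, ⟨⟨r, hr⟩, hs1⟩, hs2⟩ := ((h6.filter_mono nhdsWithin_le_nhds).and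
    (self_mem_nhdsWithin : {(0 : ℝ)}ᶜ ∈ 𝓝[≠] (0 : ℝ))).exists
  rw [e.right_inv hs1] at hr
  have h7 : (s : ℂ) * (Complex.I * u) = r * u := by linear_combination hr
  exact hs2 (transverse hu (fun r => ⟨r, rfl⟩) hu s r h7)

/-- A surface with a closed chain in direction `u` has no dense or Cantor-like foliation in a
direction `v` parallel to `u`. -/
theorem not_exceptional (C : Chain X u) (hu : u ≠ 0) {v : ℂ} (hv : v ≠ 0)
    (huv : ∀ r : ℝ, ∃ r' : ℝ, r * v = r' * u) :
    ¬ (IsMinimalDir X v ∨ IsCantorDir X v) := by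
  have hx := C.x_mem_Z 0 C.N_pos
  have hreg := C.Z_regular _ hx
  have hleaf := C.leaf_subset hu huv hx
  rintro (hmin | ⟨K, hKne, hKreg, -, -, hcantor, hacc⟩)
  · have h1 := hmin (C.x 0) hreg
    have h2 : closure (leaf X v (C.x 0)) ⊆ C.Z := closure_minimal hleaf C.Z_closed
    rw [h1.closure_eq] at h2
    exact C.Z_ne_univ hu (univ_subset_iff.1 h2)
  · have h1 := hacc (C.x 0) hreg
    have h2 : K ⊆ C.Z := h1.trans (closure_minimal hleaf C.Z_closed)
    obtain ⟨y, hy⟩ := hKne
    obtain ⟨e, he, hye, ε, hε, htar, hperf, -⟩ := hcantor y hy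
    have h0 : (0 : ℝ) ∈ {s : ℝ | s ∈ Icc (-ε) ε ∧ e.symm (e y + s * (Complex.I * v)) ∈ K} := by
      refine ⟨⟨by linarith, hε.le⟩, ?_⟩
      simpa [e.left_inv hye] using hy
    have hacc0 := hperf.acc 0 h0
    have hline := C.Z_subset_line y he hye
    have ht : e y ∈ e.target := e.map_source hye
    have hcurve : ContinuousAt (fun s : ℝ => e.symm (e y + s * (Complex.I * v))) 0 := by
      have h2 : ContinuousAt (fun s : ℝ => e y + s * (Complex.I * v)) 0 := by fun_prop
      apply ContinuousAt.comp (g := e.symm) _ h2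
      simpa using e.continuousAt_symm ht
    have h4 := hcurve.tendsto
    simp only [Complex.ofReal_zero, zero_mul, add_zero, e.left_inv hye] at h4
    have h5 := h4.eventually hline
    rw [accPt_iff_frequently] at hacc0
    obtain ⟨s, ⟨hs0, hs1⟩, hs2⟩ := (hacc0.and_eventually h5).exists
    have hs3 := hs2 (h2 hs1.2)
    obtain ⟨r, hr⟩ := hs3
    rw [e.right_inv (htar s hs1.1)] at hr
    have h7 : (s : ℂ) * (Complex.I * v) = r * u := by linear_combination hr
    exact hs0 (transverse hu huv hv s r h7)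

end Chain

/-- If for every direction there is a closed chain in this direction or the opposite one, there is
no exceptional direction. -/
theorem not_hasExceptionalDirection (X : AffSurf)
    (h : ∀ u : ℂ, ‖u‖ = 1 → Nonempty (Chain X u) ∨ Nonempty (Chain X (-u))) :
    ¬ HasExceptionalDirection X := by
  rintro ⟨u, hu, hexc⟩
  have hu0 : u ≠ 0 := by
    rintro rfl; simp at hu
  rcases h u hu with ⟨⟨C⟩⟩ | ⟨⟨C⟩⟩
  · exact C.not_exceptional hu0 hu0 (fun r => ⟨r, rfl⟩) hexc
  · exact C.not_exceptional (neg_ne_zero.2 hu0) hu0 (fun r => ⟨-r, by push_cast; ring⟩) hexc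

end Pool.Agent.Lib.MP_ed6522_an
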