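import Pool.Agent.Lib.MP_ed6522_an.Chain

/-!
# Uniqueness and continuation of affine transition maps
-/

set_option autoImplicit false

open Set Topology Filter

namespace Pool.Agent.Lib.MP_ed6522_an

/-- An affine transition is determined by its germ. -/
theorem affine_unique {M : Type} [TopologicalSpace M] {e : OpenPartialHomeomorph M ℂ} {y : M}
    (hy : y ∈ e.source) {a a' : ℝ} {c c' : ℂ}
    (h : ∀ᶠ z in 𝓝 y, (a : ℂ) * e z + c = a' * e z + c') : a = a' ∧ c = c' := by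
  have ht : e y ∈ e.target := e.map_source hy
  have hsymm : Tendsto e.symm (𝓝 (e y)) (𝓝 y) := by
    have := (e.continuousAt_symm ht).tendsto
    rwa [e.left_inv hy] at this
  have h1 : ∀ᶠ w in 𝓝 (e y), (a : ℂ) * w + c = a' * w + c' := by
    filter_upwards [hsymm.eventually h, e.open_target.mem_nhds ht] with w hw hw'
    rwa [e.right_inv hw'] at hw
  have h0 := h1.self_of_nhds
  obtain ⟨w, hw, hw'⟩ := ((h1.filter_mono nhdsWithin_le_nhds).and
    (self_mem_nhdsWithin : {e y}ᶜ ∈ 𝓝[≠] (e y))).exists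
  have hne : w - e y ≠ 0 := sub_ne_zero.2 hw'
  have h2 : ((a : ℂ) - a') * (w - e y) = 0 := by linear_combination hw - h0
  rcases mul_eq_zero.1 h2 with h3 | h3
  · have h4 : (a : ℂ) = a' := sub_eq_zero.1 h3
    refine ⟨by exact_mod_cast h4, ?_⟩
    rw [h4] at h0
    linear_combination h0
  · exact absurd h3 hne

/-- The transition map is constant along preconnected sets. -/
theorem trans_const (Y : AffSurf) {e e' : OpenPartialHomeomorph Y.carrier ℂ} (he : e ∈ Y.atlas)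
    (he' : e' ∈ Y.atlas) {S : Set Y.carrier} (hS : IsPreconnected S) (h1 : S ⊆ e.source)
    (h2 : S ⊆ e'.source) {y₀ : Y.carrier} (hy₀ : y₀ ∈ S) :
    ∃ a : ℝ, 0 < a ∧ ∃ c : ℂ, ∀ y ∈ S, ∀ᶠ z in 𝓝 y, e' z = a * e z + c := by
  obtain ⟨a, ha, c, hc⟩ := Y.compat e he e' he' y₀ (h1 hy₀) (h2 hy₀)
  refine ⟨a, ha, c, ?_⟩
  set G : Set Y.carrier := {y | ∀ᶠ z in 𝓝 y, e' z = a * e z + c} with hG
  have hGo : IsOpen G := by
    rw [isOpen_iff_mem_nhds]
    intro y hy
    exact eventually_eventually_nhds.2 hy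
  have : S ⊆ G := by
    apply hS.subset_of_closure_inter_subset hGo ⟨y₀, hy₀, hc⟩
    rintro y ⟨hy, hyS⟩
    obtain ⟨a', ha', c', hc'⟩ := Y.compat e he e' he' y (h1 hyS) (h2 hyS)
    have hev : ∀ᶠ z in 𝓝 y, z ∈ e.source ∧ ∀ᶠ w in 𝓝 z, e' w = a' * e w + c' :=
      (e.open_source.eventually_mem (h1 hyS)).and (eventually_eventually_nhds.2 hc')
    obtain ⟨z, hzG, hz1, hz2⟩ := ((mem_closure_iff_frequently.1 hy).and_eventually hev).exists
    have hzG' : ∀ᶠ w in 𝓝 z, e' w = a * e w + c := hzG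
    have h3 : ∀ᶠ w in 𝓝 z, (a : ℂ) * e w + c = a' * e w + c' := by
      filter_upwards [hzG', hz2] with w hw hw'
      rw [← hw, ← hw']
    obtain ⟨rfl, rfl⟩ := affine_unique hz1 h3
    exact hc'
  exact this

/-- Continuation of a transition map along a preconnected subset of the plane. -/
theorem continuation (Y : AffSurf) {e e' : OpenPartialHomeomorph Y.carrier ℂ} (he : e ∈ Y.atlas)
    (he' : e' ∈ Y.atlas) {Ω : Set ℂ} (hΩ : IsPreconnected Ω) {a : ℝ} {c : ℂ}
    (h1 : Ω ⊆ e.target) (h2 : ∀ w ∈ Ω, (a : ℂ) * w + c ∈ e'.target) {w₀ : ℂ} (hw₀ : w₀ ∈ Ω)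
    (hs : e.symm w₀ ∈ e'.source) (hg : ∀ᶠ z in 𝓝 (e.symm w₀), e' z = a * e z + c) :
    ∀ w ∈ Ω, e.symm w ∈ e'.source ∧ ∀ᶠ z in 𝓝 (e.symm w), e' z = a * e z + c := by
  set G : Set ℂ := {w | w ∈ e.target ∧ (a : ℂ) * w + c ∈ e'.target ∧ e.symm w ∈ e'.source ∧
    ∀ᶠ z in 𝓝 (e.symm w), e' z = a * e z + c} with hG
  have hcont : Continuous (fun w : ℂ => (a : ℂ) * w + c) := by fun_prop
  have hGo : IsOpen G := by
    rw [isOpen_iff_mem_nhds]
    rintro w ⟨hw1, hw2, hw3, hw4⟩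
    have hsymm := e.continuousAt_symm hw1
    have e1 := e.open_target.mem_nhds hw1
    have e2 := hcont.continuousAt.preimage_mem_nhds (e'.open_target.mem_nhds hw2)
    have e3 := hsymm.preimage_mem_nhds (e'.open_source.mem_nhds hw3)
    have e4 := hsymm.preimage_mem_nhds (eventually_eventually_nhds.2 hw4)
    filter_upwards [e1, e2, e3, e4] with v v1 v2 v3 v4
    exact ⟨v1, v2, v3, v4⟩
  have hval : ∀ w ∈ G, e'.symm ((a : ℂ) * w + c) = e.symm w := by
    rintro w ⟨hw1, hw2, hw3, hw4⟩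
    have := hw4.self_of_nhds
    rw [e.right_inv hw1] at this
    rw [← this, e'.left_inv hw3]
  have : Ω ⊆ G := by
    apply hΩ.subset_of_closure_inter_subset hGo ⟨w₀, hw₀, h1 hw₀, h2 _ hw₀, hs, hg⟩
    rintro w ⟨hw, hwΩ⟩
    have hw1 := h1 hwΩ
    have hw2 := h2 w hwΩ
    have hsymm := e.continuousAt_symm hw1
    have hsymm' : ContinuousAt (fun v : ℂ => e'.symm ((a : ℂ) * v + c)) w :=
      ContinuousAt.comp (g := e'.symm) (f := fun v : ℂ => (a : ℂ) * v + c)
        (e'.continuousAt_symm hw2) hcont.continuousAt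
    have hfreq := mem_closure_iff_frequently.1 hw
    have heq : e'.symm ((a : ℂ) * w + c) = e.symm w := by
      by_contra hne
      have hev := (hsymm'.ne_iff_eventually_ne hsymm).1 hne
      obtain ⟨v, hv, hv'⟩ := (hfreq.and_eventually hev).exists
      exact hv' (hval v hv)
    have hsrc : e.symm w ∈ e'.source := by
      rw [← heq]; exact e'.map_target hw2
    obtain ⟨a', ha', c', hc'⟩ := Y.compat e he e' he' (e.symm w) (e.map_target hw1) hsrc
    have hev : ∀ᶠ v in 𝓝 w, ∀ᶠ z in 𝓝 (e.symm v), e' z = a' * e z + c' :=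
      hsymm.tendsto.eventually (eventually_eventually_nhds.2 hc')
    obtain ⟨v, ⟨hv1, hv2, hv3, hv4⟩, hv5⟩ := (hfreq.and_eventually hev).exists
    have h3 : ∀ᶠ z in 𝓝 (e.symm v), (a : ℂ) * e z + c = a' * e z + c' := by
      filter_upwards [hv4, hv5] with z hz hz'
      rw [← hz, ← hz']
    obtain ⟨rfl, rfl⟩ := affine_unique (e.map_target hv1) h3
    exact ⟨hw1, hw2, hsrc, hc'⟩
  intro w hw
  exact ⟨(this hw).2.2.1, (this hw).2.2.2⟩

end Pool.Agent.Lib.MP_ed6522_an
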