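import Mathlib

/-!
# Affine surfaces, their directional foliations and their moduli space

Definitions for problem MP_ed6522_an.
-/

set_option autoImplicit false

open Set Topology Filter

namespace Pool.Agent.Lib.MP_ed6522_an

/-- Two charts with values in `ℂ` are compatible if near every common point the transition map
between them has the form `z ↦ a z + c` with `a` a positive real number and `c ∈ ℂ`. -/
def Compat {M : Type} [TopologicalSpace M] (e e' : OpenPartialHomeomorph M ℂ) : Prop :=
  ∀ x ∈ e.source, x ∈ e'.source →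
    ∃ a : ℝ, 0 < a ∧ ∃ c : ℂ, ∀ᶠ y in 𝓝 x, e' y = a * e y + c

/-- The affine structure given by the atlas `A` on the complement of `S` extends at `s` to a
Euclidean cone point of angle `2kπ`: there is a coordinate `ψ` centred at `s` such that, near every
point `x ≠ s` of its domain, every affine chart is `a ψ ^ k + c` with `a > 0` real, `c ∈ ℂ`. -/
def ConeAt {M : Type} [TopologicalSpace M] (A : Set (OpenPartialHomeomorph M ℂ)) (S : Set M)
    (s : M) (k : ℕ) : Prop :=
  ∃ ψ : OpenPartialHomeomorph M ℂ, s ∈ ψ.source ∧ ψ s = 0 ∧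
    ∀ x ∈ ψ.source, x ≠ s → x ∉ S ∧ ∀ e ∈ A, x ∈ e.source →
      ∃ a : ℝ, 0 < a ∧ ∃ c : ℂ, ∀ᶠ y in 𝓝 x, e y = a * (ψ y) ^ k + c

/-- A (closed, connected) affine surface: a compact connected Hausdorff space, a finite set `sing`
and a maximal atlas on the complement of `sing` with values in `ℂ` whose transition maps are
`z ↦ a z + c` with `a > 0` real, such that each point of `sing` is a Euclidean cone point of angle
`2kπ` with `k ≥ 2`. -/
structure AffSurf where
  /-- the underlying space -/
  carrier : Type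
  [topo : TopologicalSpace carrier]
  [compact : CompactSpace carrier]
  [t2 : T2Space carrier]
  [conn : ConnectedSpace carrier]
  /-- the finite set of cone points -/
  sing : Set carrier
  sing_finite : sing.Finite
  /-- the affine charts -/
  atlas : Set (OpenPartialHomeomorph carrier ℂ)
  avoid : ∀ e ∈ atlas, ∀ x ∈ e.source, x ∉ sing
  cover : ∀ x ∉ sing, ∃ e ∈ atlas, x ∈ e.source
  compat : ∀ e ∈ atlas, ∀ e' ∈ atlas, Compat e e'
  maximal : ∀ e : OpenPartialHomeomorph carrier ℂ, (∀ x ∈ e.source, x ∉ sing) →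
    (∀ e' ∈ atlas, Compat e e') → e ∈ atlas
  cone : ∀ s ∈ sing, ∃ k : ℕ, 2 ≤ k ∧ ConeAt atlas sing s k

attribute [instance] AffSurf.topo AffSurf.compact AffSurf.t2 AffSurf.conn

/-- The surface has genus `g`, expressed through the cone angles `2 k(s) π` by the Gauss-Bonnet
relation `∑ (1 - k(s)) = 2 - 2 g`. -/
def HasGenus (X : AffSurf) (g : ℕ) : Prop :=
  ∃ k : X.carrier → ℕ, (∀ s ∈ X.sing, 2 ≤ k s ∧ ConeAt X.atlas X.sing s (k s)) ∧
    ∑ s ∈ X.sing_finite.toFinset, (1 - (k s : ℤ)) = 2 - 2 * (g : ℤ)

/-- The leaf through `x` of the directional foliation in direction `u`: all end points of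
continuous paths from `x` in the complement of the cone points which, in every affine chart, move
along a line parallel to `u`. -/
def leaf (X : AffSurf) (u : ℂ) (x : X.carrier) : Set X.carrier :=
  {y | ∃ γ : Path x y, ∀ t : unitInterval, γ t ∉ X.sing ∧
    ∀ e ∈ X.atlas, γ t ∈ e.source → ∀ᶠ s in 𝓝 t, ∃ r : ℝ, e (γ s) = e (γ t) + r * u}

/-- The directional foliation in direction `u` is minimal: every leaf is dense. -/
def IsMinimalDir (X : AffSurf) (u : ℂ) : Prop :=
  ∀ x ∉ X.sing, Dense (leaf X u x)

/-- The set `K` is transversely a Cantor set: every point `x` of `K` lies on a segment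
perpendicular to `u` (in an affine chart) which meets `K` in a perfect totally disconnected
compact set. -/
def TransverselyCantor (X : AffSurf) (u : ℂ) (K : Set X.carrier) : Prop :=
  ∀ x ∈ K, ∃ e ∈ X.atlas, x ∈ e.source ∧ ∃ ε : ℝ, 0 < ε ∧
    (∀ s ∈ Icc (-ε) ε, e x + s * (Complex.I * u) ∈ e.target) ∧
    Perfect {s : ℝ | s ∈ Icc (-ε) ε ∧ e.symm (e x + s * (Complex.I * u)) ∈ K} ∧
    IsTotallyDisconnected {s : ℝ | s ∈ Icc (-ε) ε ∧ e.symm (e x + s * (Complex.I * u)) ∈ K}

/-- The directional foliation in direction `u` is Cantor-like: every leaf accumulates onto a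
nonempty set `K` which is a union of leaves, closed (in the complement of the cone points) and
transversely a Cantor set. -/
def IsCantorDir (X : AffSurf) (u : ℂ) : Prop :=
  ∃ K : Set X.carrier, K.Nonempty ∧ Disjoint K X.sing ∧ closure K ⊆ K ∪ X.sing ∧
    (∀ x ∈ K, leaf X u x ⊆ K) ∧ TransverselyCantor X u K ∧
    ∀ x ∉ X.sing, K ⊆ closure (leaf X u x)

/-- The surface has an exceptional direction: a unit vector `u` such that the directional
foliation in direction `u` is minimal or Cantor-like. -/
def HasExceptionalDirection (X : AffSurf) : Prop :=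
  ∃ u : ℂ, ‖u‖ = 1 ∧ (IsMinimalDir X u ∨ IsCantorDir X u)

/-- A homeomorphism is an affine isomorphism if it maps cone points to cone points, regular points
to regular points and has the form `z ↦ a z + c`, `a > 0` real, in affine charts. -/
def IsAffineIso (X Y : AffSurf) (f : X.carrier ≃ₜ Y.carrier) : Prop :=
  (∀ x, f x ∈ Y.sing ↔ x ∈ X.sing) ∧
    ∀ e ∈ X.atlas, ∀ e' ∈ Y.atlas, ∀ x ∈ e.source, f x ∈ e'.source →
      ∃ a : ℝ, 0 < a ∧ ∃ c : ℂ, ∀ᶠ y in 𝓝 x, e' (f y) = a * e y + c

theorem Compat.symm {M : Type} [TopologicalSpace M] {e e' : OpenPartialHomeomorph M ℂ}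
    (h : Compat e e') : Compat e' e := by
  intro x hx' hx
  obtain ⟨a, ha, c, hc⟩ := h x hx hx'
  refine ⟨a⁻¹, inv_pos.mpr ha, -(a⁻¹ * c), ?_⟩
  filter_upwards [hc] with y hy
  rw [hy]
  have ha' : (a : ℂ) ≠ 0 := by exact_mod_cast ha.ne'
  push_cast
  field_simp
  ring

theorem isAffineIso_refl (X : AffSurf) : IsAffineIso X X (Homeomorph.refl _) := by
  refine ⟨fun x => Iff.rfl, ?_⟩
  intro e he e' he' x hx hx'
  exact X.compat e he e' he' x hx hx'

theorem isAffineIso_symm {X Y : AffSurf} {f : X.carrier ≃ₜ Y.carrier} (h : IsAffineIso X Y f) :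
    IsAffineIso Y X f.symm := by
  refine ⟨fun y => ?_, ?_⟩
  · rw [← h.1 (f.symm y), f.apply_symm_apply]
  · intro e' he' e he y hy' hy
    obtain ⟨a, ha, c, hc⟩ := h.2 e he e' he' (f.symm y) hy (by rwa [f.apply_symm_apply])
    refine ⟨a⁻¹, inv_pos.mpr ha, -(a⁻¹ * c), ?_⟩
    have hcont : Tendsto f.symm (𝓝 y) (𝓝 (f.symm y)) := f.symm.continuous.tendsto y
    filter_upwards [hcont.eventually hc] with z hz
    rw [f.apply_symm_apply] at hz
    rw [hz]
    have ha' : (a : ℂ) ≠ 0 := by exact_mod_cast ha.ne'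
    push_cast
    field_simp
    ring

theorem isAffineIso_trans {X Y Z : AffSurf} {f : X.carrier ≃ₜ Y.carrier}
    {f' : Y.carrier ≃ₜ Z.carrier} (h : IsAffineIso X Y f) (h' : IsAffineIso Y Z f') :
    IsAffineIso X Z (f.trans f') := by
  refine ⟨fun x => ?_, ?_⟩
  · rw [Homeomorph.trans_apply, h'.1, h.1]
  · intro e he e'' he'' x hx hx''
    have hx0 : x ∉ X.sing := X.avoid e he x hx
    have hfx : f x ∉ Y.sing := fun hh => hx0 ((h.1 x).1 hh)
    obtain ⟨e', he', hfx'⟩ := Y.cover (f x) hfx
    obtain ⟨a, ha, c, hc⟩ := h.2 e he e' he' x hx hfx'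
    obtain ⟨b, hb, d, hd⟩ := h'.2 e' he' e'' he'' (f x) hfx' hx''
    refine ⟨b * a, mul_pos hb ha, b * c + d, ?_⟩
    have hcont : Tendsto f (𝓝 x) (𝓝 (f x)) := f.continuous.tendsto x
    filter_upwards [hc, hcont.eventually hd] with z hz hz'
    rw [Homeomorph.trans_apply, hz', hz]
    push_cast
    ring

/-- Affine surfaces of genus `g`. -/
def SurfOfGenus (g : ℕ) : Type 1 := {X : AffSurf // HasGenus X g}

/-- Affine isomorphism as an equivalence relation on surfaces of genus `g`. -/
instance isoSetoid (g : ℕ) : Setoid (SurfOfGenus g) where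
  r X Y := ∃ f : X.1.carrier ≃ₜ Y.1.carrier, IsAffineIso X.1 Y.1 f
  iseqv :=
    { refl := fun X => ⟨Homeomorph.refl _, isAffineIso_refl X.1⟩
      symm := fun ⟨f, hf⟩ => ⟨f.symm, isAffineIso_symm hf⟩
      trans := fun ⟨f, hf⟩ ⟨f', hf'⟩ => ⟨f.trans f', isAffineIso_trans hf hf'⟩ }

/-- The moduli space of affine surfaces of genus `g` up to affine isomorphism. -/
def Moduli (g : ℕ) : Type 1 := Quotient (isoSetoid g)

/-- The class of a surface in the moduli space. -/
def Moduli.mk {g : ℕ} (X : SurfOfGenus g) : Moduli g := Quotient.mk (isoSetoid g) X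

/-- `Y` is `ε`-close to `X` with respect to the charts `e i` of `X` and the sets `K i`: there are a
homeomorphism `h` from `X` to `Y` and affine charts `e' i` of `Y`, whose domain contains `h (K i)`
and whose range contains `e i (K i)`, such that `e' i ∘ h` is uniformly `ε`-close to `e i` on
`K i`, for all `i`. (The condition on the range does not affect the topology defined below: by a
degree argument it holds automatically for charts which are close to `e i` on a compact
neighbourhood of `K i`.) -/
def Near (X Y : AffSurf) {ι : Type} (e : ι → OpenPartialHomeomorph X.carrier ℂ)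
    (K : ι → Set X.carrier) (ε : ℝ) : Prop :=
  ∃ (h : X.carrier ≃ₜ Y.carrier) (e' : ι → OpenPartialHomeomorph Y.carrier ℂ),
    ∀ i, e' i ∈ Y.atlas ∧ h '' K i ⊆ (e' i).source ∧ e i '' K i ⊆ (e' i).target ∧
      ∀ x ∈ K i, ‖e' i (h x) - e i x‖ < ε

/-- The natural topology of the moduli space: a set `U` is open if with every surface `X` it
contains all surfaces `Y` which, after some identification of `Y` with `X` by a homeomorphism, have
affine charts uniformly close to those of `X` on given compact sets: for every `X` in `U` there are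
finitely many affine charts `e i` of `X`, compact subsets `K i` of their domains with convex images
`e i (K i)` and `ε > 0` such that `U` contains every `Y` which is `ε`-close to `X` with respect to
these data. (Only convex images are allowed because an affine chart of `X` on, for instance, an
annulus need not have a counterpart on surfaces close to `X`, whose holonomy along the annulus can
be nontrivial.) -/
instance moduliTopology (g : ℕ) : TopologicalSpace (Moduli g) where
  IsOpen U := ∀ X : SurfOfGenus g, Moduli.mk X ∈ U →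
    ∃ (ι : Type) (_ : Finite ι) (e : ι → OpenPartialHomeomorph X.1.carrier ℂ)
      (K : ι → Set X.1.carrier) (ε : ℝ), 0 < ε ∧
      (∀ i, e i ∈ X.1.atlas ∧ IsCompact (K i) ∧ K i ⊆ (e i).source ∧ Convex ℝ (e i '' K i)) ∧
      ∀ Y : SurfOfGenus g, Near X.1 Y.1 e K ε → Moduli.mk Y ∈ U
  isOpen_univ := fun X _ => ⟨Empty, inferInstance, fun i => i.elim, fun i => i.elim, 1, one_pos,
    fun i => i.elim, fun _ _ => mem_univ _⟩
  isOpen_inter := by
    intro U V hU hV X hX
    obtain ⟨ι, hι, e, K, ε, hε, h1, h2⟩ := hU X hX.1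
    obtain ⟨ι', hι', e', K', ε', hε', h1', h2'⟩ := hV X hX.2
    refine ⟨ι ⊕ ι', inferInstance, Sum.elim e e', Sum.elim K K', min ε ε', lt_min hε hε', ?_, ?_⟩
    · rintro (i | i)
      · exact h1 i
      · exact h1' i
    · rintro Y ⟨h, e'', hh⟩
      refine ⟨h2 Y ⟨h, fun i => e'' (Sum.inl i), fun i => ?_⟩,
        h2' Y ⟨h, fun i => e'' (Sum.inr i), fun i => ?_⟩⟩
      · obtain ⟨ha, hb, hc, hd⟩ := hh (Sum.inl i)
        exact ⟨ha, hb, hc, fun x hx => (hd x hx).trans_le (min_le_left _ _)⟩
      · obtain ⟨ha, hb, hc, hd⟩ := hh (Sum.inr i)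
        exact ⟨ha, hb, hc, fun x hx => (hd x hx).trans_le (min_le_right _ _)⟩
  isOpen_sUnion := by
    intro S hS X hX
    obtain ⟨U, hU, hXU⟩ := hX
    obtain ⟨ι, hι, e, K, ε, hε, h1, h2⟩ := hS U hU X hXU
    exact ⟨ι, hι, e, K, ε, hε, h1, fun Y hY => ⟨U, hU, h2 Y hY⟩⟩

/-- The set `E_g` of affine surfaces of genus `g` having at least one exceptional direction. -/
def exceptionalSet (g : ℕ) : Set (Moduli g) :=
  {m | ∃ X : SurfOfGenus g, Moduli.mk X = m ∧ HasExceptionalDirection X.1}

end Pool.Agent.Lib.MP_ed6522_an
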