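import Pool.Agent.Lib.MP_ed6522_an.Persist2

/-!
# The example: underlying space

`X_n` is the set of pairs `(b, w)` of complex numbers with `|b| = 1` and
`|Re b + 2/5 - w ^ n| = 1`, an `n`-fold branched cover of the torus of pairs `(b, a)` with
`|b| = |a| = 1`, where `w ^ n = Re b + 2/5 - conj a`.
-/

set_option autoImplicit false

open Set Topology Filter Complex
open scoped Real ComplexConjugate

namespace Pool.Agent.Lib.MP_ed6522_an

/-- The underlying set of the example. -/
def Xset (n : ℕ) : Set (ℂ × ℂ) :=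
  {P | ‖P.1‖ = 1 ∧ ‖((P.1.re : ℝ) : ℂ) + 2 / 5 - P.2 ^ n‖ = 1}

/-- The underlying space of the example. -/
abbrev XC (n : ℕ) : Type := Xset n

variable {n : ℕ}

/-- The coordinate `b`. -/
def bf (P : XC n) : ℂ := P.1.1

/-- The coordinate `w`. -/
def wf (P : XC n) : ℂ := P.1.2

/-- The function `a`, the conjugate of `Re b + 2/5 - w ^ n`. -/
noncomputable def af (P : XC n) : ℂ := conj (((bf P).re : ℂ) + 2 / 5 - wf P ^ n)

theorem continuous_bf : Continuous (bf : XC n → ℂ) := by
  unfold bf; fun_prop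

theorem continuous_wf : Continuous (wf : XC n → ℂ) := by
  unfold wf; fun_prop

theorem continuous_af : Continuous (af : XC n → ℂ) := by
  unfold af
  have h1 := continuous_bf (n := n)
  have h2 := continuous_wf (n := n)
  apply Complex.continuous_conj.comp
  apply Continuous.sub
  · apply Continuous.add _ continuous_const
    exact Complex.continuous_ofReal.comp (Complex.continuous_re.comp h1)
  · exact h2.pow n

theorem norm_bf (P : XC n) : ‖bf P‖ = 1 := P.2.1

theorem norm_af (P : XC n) : ‖af P‖ = 1 := by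
  rw [af, RCLike.norm_conj]; exact P.2.2

theorem af_ne_zero (P : XC n) : af P ≠ 0 := by
  rw [← norm_pos_iff, norm_af]; exact one_pos

theorem bf_ne_zero (P : XC n) : bf P ≠ 0 := by
  rw [← norm_pos_iff, norm_bf]; exact one_pos

theorem wf_pow (P : XC n) : wf P ^ n = ((bf P).re : ℂ) + 2 / 5 - conj (af P) := by
  rw [af, Complex.conj_conj]; ring

theorem ext_XC {P Q : XC n} (h1 : bf P = bf Q) (h2 : wf P = wf Q) : P = Q :=
  Subtype.ext (Prod.ext h1 h2)

theorem Xset_closed (n : ℕ) : IsClosed (Xset n) := by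
  unfold Xset
  apply IsClosed.inter
  · exact isClosed_eq (by fun_prop) continuous_const
  · apply isClosed_eq _ continuous_const
    have : Continuous fun P : ℂ × ℂ => ((P.1.re : ℝ) : ℂ) :=
      Complex.continuous_ofReal.comp (Complex.continuous_re.comp continuous_fst)
    fun_prop

theorem norm_wf_le (hn : 1 ≤ n) (P : ℂ × ℂ) (hP : P ∈ Xset n) : ‖P.2‖ ≤ 3 := by
  obtain ⟨h1, h2⟩ := hP
  by_contra hcon
  push Not at hcon
  have h3 : ‖P.2 ^ n‖ ≤ 1 + (1 + 2 / 5) := by
    have : P.2 ^ n = -(((P.1.re : ℝ) : ℂ) + 2 / 5 - P.2 ^ n) + (((P.1.re : ℝ) : ℂ) + 2 / 5) := by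
      ring
    rw [this]
    refine (norm_add_le _ _).trans ?_
    rw [norm_neg, h2]
    have h4 : ‖((P.1.re : ℝ) : ℂ) + 2 / 5‖ ≤ 1 + 2 / 5 := by
      refine (norm_add_le _ _).trans ?_
      have h5 : ‖((P.1.re : ℝ) : ℂ)‖ ≤ 1 := by
        rw [Complex.norm_real, ← h1]
        exact Complex.abs_re_le_norm _
      have h6 : ‖(2 / 5 : ℂ)‖ = 2 / 5 := by
        rw [norm_div]; norm_num
      linarith
    linarith
  rw [norm_pow] at h3
  have h4 : (3 : ℝ) ^ 1 ≤ ‖P.2‖ ^ n := by
    calc (3 : ℝ) ^ 1 ≤ 3 ^ n := pow_le_pow_right₀ (by norm_num) hn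
      _ ≤ ‖P.2‖ ^ n := pow_le_pow_left₀ (by norm_num) hcon.le n
  linarith

theorem Xset_compact (hn : 1 ≤ n) : IsCompact (Xset n) := by
  apply Metric.isCompact_of_isClosed_isBounded (Xset_closed n)
  apply Metric.isBounded_closedBall.subset (s := Xset n) (t := Metric.closedBall (0 : ℂ × ℂ) 3)
  intro P hP
  rw [mem_closedBall_zero_iff, Prod.norm_def, max_le_iff]
  exact ⟨by rw [hP.1]; norm_num, norm_wf_le hn P hP⟩

theorem compactSpace_XC (hn : 1 ≤ n) : CompactSpace (XC n) :=
  isCompact_iff_compactSpace.1 (Xset_compact hn)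

/-- The cone points: `w = 0`. -/
def singX (n : ℕ) : Set (XC n) := {P | wf P = 0}

theorem mem_Xset_of_w_zero (hn : 1 ≤ n) {b : ℂ} (hb : ‖b‖ = 1) (hre : b.re = 3 / 5) :
    ((b, 0) : ℂ × ℂ) ∈ Xset n := by
  refine ⟨hb, ?_⟩
  simp only [hre]
  rw [zero_pow (by omega)]
  norm_num

theorem norm_bplus : ‖(⟨3 / 5, 4 / 5⟩ : ℂ)‖ = 1 := by
  rw [Complex.norm_def, Complex.normSq_mk]
  norm_num

theorem norm_bminus : ‖(⟨3 / 5, -(4 / 5)⟩ : ℂ)‖ = 1 := by
  rw [Complex.norm_def, Complex.normSq_mk]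
  norm_num

/-- The upper cone point. -/
noncomputable def splus (hn : 1 ≤ n) : XC n := ⟨(⟨3 / 5, 4 / 5⟩, 0), mem_Xset_of_w_zero hn norm_bplus rfl⟩

/-- The lower cone point. -/
noncomputable def sminus (hn : 1 ≤ n) : XC n := ⟨(⟨3 / 5, -(4 / 5)⟩, 0), mem_Xset_of_w_zero hn norm_bminus rfl⟩

theorem re_of_wf_zero (hn : 1 ≤ n) {P : XC n} (h : wf P = 0) : (bf P).re = 3 / 5 := by
  have h2 := P.2.2
  change ‖(((bf P).re : ℝ) : ℂ) + 2 / 5 - wf P ^ n‖ = 1 at h2
  rw [h, zero_pow (by omega), sub_zero] at h2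
  have h3 : (((bf P).re : ℝ) : ℂ) + 2 / 5 = (((bf P).re + 2 / 5 : ℝ) : ℂ) := by push_cast; ring
  rw [h3, Complex.norm_real, Real.norm_eq_abs] at h2
  have h4 : |(bf P).re| ≤ 1 := by
    rw [← norm_bf P]; exact Complex.abs_re_le_norm _
  have h5 := abs_le.1 h4
  rcases abs_eq (zero_le_one) |>.1 h2 with h6 | h6
  · linarith
  · linarith [h5.1]

theorem singX_eq (hn : 1 ≤ n) : singX n = {splus hn, sminus hn} := by
  ext P
  simp only [singX, mem_ofPred_eq, mem_insert_iff, mem_singleton_iff]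
  constructor
  · intro h
    have hre := re_of_wf_zero hn h
    have h1 : (bf P).re ^ 2 + (bf P).im ^ 2 = 1 := by
      have := Complex.sq_norm (bf P)
      rw [norm_bf, Complex.normSq_apply] at this
      nlinarith
    have h2 : ((bf P).im - 4 / 5) * ((bf P).im + 4 / 5) = 0 := by
      rw [hre] at h1; nlinarith
    rcases mul_eq_zero.1 h2 with h3 | h3
    · left
      apply ext_XC
      · apply Complex.ext
        · exact hre
        · change (bf P).im = 4 / 5; linarith
      · exact h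
    · right
      apply ext_XC
      · apply Complex.ext
        · exact hre
        · change (bf P).im = -(4 / 5); linarith
      · exact h
  · rintro (rfl | rfl)
    · rfl
    · rfl

theorem splus_ne_sminus (hn : 1 ≤ n) : splus hn ≠ sminus hn := by
  intro h
  have h1 := congrArg (fun P : XC n => (bf P).im) h
  simp only [bf, splus, sminus] at h1
  norm_num at h1

theorem singX_finite (hn : 1 ≤ n) : (singX n).Finite := by
  rw [singX_eq hn]; simp

end Pool.Agent.Lib.MP_ed6522_an
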