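import Pool.Agent.Lib.MP_ed6522_an.Ex1

/-!
# The example: regular charts
-/

set_option autoImplicit false

open Set Topology Filter Complex
open scoped Real ComplexConjugate

namespace Pool.Agent.Lib.MP_ed6522_an

/-- A sector. -/
def Sec (n : ℕ) : Set ℂ := {x | x ∈ slitPlane ∧ |arg x| < π / n}

theorem arg_root {n : ℕ} (hn : 1 ≤ n) {y : ℂ} (hy : y ≠ 0) :
    arg (y ^ ((n : ℂ)⁻¹)) = arg y / n := by
  have hn' : (1 : ℝ) ≤ n := by exact_mod_cast hn
  have hn0 : (0 : ℝ) < n := by linarith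
  rw [cpow_def_of_ne_zero hy, ← Complex.log_im, ]
  have him : (log y * (n : ℂ)⁻¹).im = arg y / n := by
    have : (n : ℂ)⁻¹ = (((n : ℝ)⁻¹ : ℝ) : ℂ) := by push_cast; rfl
    rw [this, Complex.im_mul_ofReal, Complex.log_im]; rfl
  have h1 := Complex.neg_pi_lt_arg y
  have h2 := Complex.arg_le_pi y
  have hb1 : -π < (log y * (n : ℂ)⁻¹).im := by
    rw [him, lt_div_iff₀ hn0]
    nlinarith [Real.pi_pos]
  have hb2 : (log y * (n : ℂ)⁻¹).im ≤ π := by
    rw [him, div_le_iff₀ hn0]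
    nlinarith [Real.pi_pos]
  rw [Complex.log_exp hb1 hb2, him]

theorem root_mem_Sec {n : ℕ} (hn : 1 ≤ n) {y : ℂ} (hy : y ∈ slitPlane) :
    y ^ ((n : ℂ)⁻¹) ∈ Sec n := by
  have hn' : (1 : ℝ) ≤ n := by exact_mod_cast hn
  have hn0 : (0 : ℝ) < n := by linarith
  have hy0 : y ≠ 0 := slitPlane_ne_zero hy
  have h1 := arg_root hn hy0
  have h2 := (Complex.mem_slitPlane_iff_arg.1 hy).1
  have h3 := Complex.neg_pi_lt_arg y
  have h4 := (Complex.arg_le_pi y).lt_of_ne h2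
  have h5 : |arg (y ^ ((n : ℂ)⁻¹))| < π / n := by
    rw [h1, abs_div, abs_of_pos hn0]
    apply div_lt_div_of_pos_right _ hn0
    rw [abs_lt]; exact ⟨h3, h4⟩
  refine ⟨?_, h5⟩
  rw [Complex.mem_slitPlane_iff_arg]
  constructor
  · intro h6
    rw [h6, abs_of_pos Real.pi_pos, lt_div_iff₀ hn0] at h5
    nlinarith [Real.pi_pos]
  · intro h6
    have h7 := Complex.cpow_nat_inv_pow y (n := n) (by omega)
    rw [h6, zero_pow (by omega)] at h7
    exact hy0 h7.symm

theorem root_pow_of_mem_Sec {n : ℕ} (hn : 1 ≤ n) {x : ℂ} (hx : x ∈ Sec n) :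
    (x ^ n) ^ ((n : ℂ)⁻¹) = x := by
  have h := abs_lt.1 hx.2
  exact Complex.pow_cpow_nat_inv (by omega) h.1 h.2.le

theorem pow_mem_slitPlane {n : ℕ} (hn : 1 ≤ n) {x : ℂ} (hx : x ∈ Sec n) : x ^ n ∈ slitPlane := by
  have hn' : (1 : ℝ) ≤ n := by exact_mod_cast hn
  have hn0 : (0 : ℝ) < n := by linarith
  have hx0 : x ≠ 0 := slitPlane_ne_zero hx.1
  have hxn : x ^ n ≠ 0 := pow_ne_zero _ hx0
  rw [Complex.mem_slitPlane_iff_arg]
  refine ⟨fun h => ?_, hxn⟩
  have h1 := arg_root hn hxn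
  rw [root_pow_of_mem_Sec hn hx, h] at h1
  have h2 := hx.2
  rw [h1, abs_of_pos (div_pos Real.pi_pos hn0)] at h2
  exact lt_irrefl _ h2

theorem isOpen_Sec (n : ℕ) : IsOpen (Sec n) := by
  have h1 : ContinuousOn arg slitPlane := fun x hx => (Complex.continuousAt_arg hx).continuousWithinAt
  have h2 : ContinuousOn (fun x => |arg x|) slitPlane := h1.abs
  have := h2.isOpen_inter_preimage Complex.isOpen_slitPlane (isOpen_Iio (a := π / n))
  exact this

theorem one_mem_Sec {n : ℕ} (hn : 1 ≤ n) : (1 : ℂ) ∈ Sec n := by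
  have hn0 : (0 : ℝ) < n := by exact_mod_cast hn
  refine ⟨Complex.one_mem_slitPlane, ?_⟩
  rw [Complex.arg_one, abs_zero]
  exact div_pos Real.pi_pos hn0

variable {n : ℕ}

/-- The affine coordinate relative to the base value `a₀` of `a`. -/
noncomputable def zc (a₀ : ℂ) (P : XC n) : ℂ :=
  (Real.exp (5 / 4 * arg (af P / a₀)) : ℂ) * bf P

/-- `b` as a function of the affine coordinate. -/
noncomputable def bz (z : ℂ) : ℂ := z / (‖z‖ : ℂ)

/-- `a` as a function of the affine coordinate. -/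
noncomputable def az (a₀ z : ℂ) : ℂ := a₀ * exp (((4 / 5 * Real.log ‖z‖ : ℝ) : ℂ) * I)

/-- `w ^ n` as a function of the affine coordinate. -/
noncomputable def vz (a₀ z : ℂ) : ℂ := ((bz z).re : ℂ) + 2 / 5 - conj (az a₀ z)

theorem norm_zc (a₀ : ℂ) (P : XC n) : ‖zc a₀ P‖ = Real.exp (5 / 4 * arg (af P / a₀)) := by
  rw [zc, norm_mul, norm_bf, mul_one, Complex.norm_real, Real.norm_of_nonneg (Real.exp_pos _).le]

theorem zc_ne_zero (a₀ : ℂ) (P : XC n) : zc a₀ P ≠ 0 := by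
  rw [← norm_pos_iff, norm_zc]; exact Real.exp_pos _

theorem bz_zc (a₀ : ℂ) (P : XC n) : bz (zc a₀ P) = bf P := by
  rw [bz, norm_zc, zc]
  have : ((Real.exp (5 / 4 * arg (af P / a₀)) : ℝ) : ℂ) ≠ 0 := by
    exact_mod_cast (Real.exp_pos _).ne'
  field_simp

theorem az_zc {a₀ : ℂ} (ha₀ : ‖a₀‖ = 1) (P : XC n) : az a₀ (zc a₀ P) = af P := by
  have ha : a₀ ≠ 0 := by rw [← norm_pos_iff, ha₀]; exact one_pos
  rw [az, norm_zc, Real.log_exp]
  have h1 : (4 / 5 * (5 / 4 * arg (af P / a₀)) : ℝ) = arg (af P / a₀) := by ring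
  rw [h1]
  have h2 : ‖af P / a₀‖ = 1 := by rw [norm_div, norm_af, ha₀, div_one]
  have h3 := Complex.norm_mul_exp_arg_mul_I (af P / a₀)
  rw [h2, Complex.ofReal_one, one_mul] at h3
  rw [h3]; field_simp

theorem vz_zc {a₀ : ℂ} (ha₀ : ‖a₀‖ = 1) (P : XC n) : vz a₀ (zc a₀ P) = wf P ^ n := by
  rw [vz, bz_zc, az_zc ha₀, wf_pow]

theorem norm_bz {z : ℂ} (hz : z ≠ 0) : ‖bz z‖ = 1 := by
  rw [bz, norm_div, Complex.norm_real, norm_norm, div_self (norm_ne_zero_iff.2 hz)]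

theorem norm_az {a₀ : ℂ} (ha₀ : ‖a₀‖ = 1) (z : ℂ) : ‖az a₀ z‖ = 1 := by
  rw [az, norm_mul, ha₀, one_mul, Complex.norm_exp_ofReal_mul_I]

/-- Membership in `Xset`. -/
theorem mem_Xset_of {a₀ z w : ℂ} (ha₀ : ‖a₀‖ = 1) (hz : z ≠ 0) (hw : w ^ n = vz a₀ z) :
    (bz z, w) ∈ Xset n := by
  refine ⟨norm_bz hz, ?_⟩
  simp only
  rw [hw, vz]
  have : (((bz z).re : ℝ) : ℂ) + 2 / 5 - (((bz z).re : ℂ) + 2 / 5 - conj (az a₀ z)) =
      conj (az a₀ z) := by ring
  rw [this, RCLike.norm_conj, norm_az ha₀]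

theorem af_of {a₀ z w : ℂ} (h : (bz z, w) ∈ Xset n) (hw : w ^ n = vz a₀ z) :
    af (⟨(bz z, w), h⟩ : XC n) = az a₀ z := by
  rw [af]
  simp only [bf, wf]
  rw [hw, vz]
  have : (((bz z).re : ℝ) : ℂ) + 2 / 5 - (((bz z).re : ℂ) + 2 / 5 - conj (az a₀ z)) =
      conj (az a₀ z) := by ring
  rw [this, Complex.conj_conj]

theorem arg_az {a₀ z : ℂ} (ha₀ : ‖a₀‖ = 1) (hz : |4 / 5 * Real.log ‖z‖| < π) :
    arg (az a₀ z / a₀) = 4 / 5 * Real.log ‖z‖ := by
  have ha : a₀ ≠ 0 := by rw [← norm_pos_iff, ha₀]; exact one_pos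
  rw [az, mul_div_cancel_left₀ _ ha, Complex.arg_exp_mul_I]
  have h := abs_lt.1 hz
  apply (toIocMod_eq_self _).2
  constructor
  · exact h.1
  · have : -π + 2 * π = π := by ring
    rw [this]; exact h.2.le

theorem az_div_mem {a₀ z : ℂ} (ha₀ : ‖a₀‖ = 1) (hz : |4 / 5 * Real.log ‖z‖| < π) :
    az a₀ z / a₀ ∈ slitPlane := by
  have ha : a₀ ≠ 0 := by rw [← norm_pos_iff, ha₀]; exact one_pos
  rw [Complex.mem_slitPlane_iff_arg, arg_az ha₀ hz]
  refine ⟨(abs_lt.1 hz).2.ne, ?_⟩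
  rw [← norm_pos_iff, norm_div, norm_az ha₀, ha₀]; norm_num

theorem zc_of {a₀ z w : ℂ} (ha₀ : ‖a₀‖ = 1) (hz0 : z ≠ 0) (hz : |4 / 5 * Real.log ‖z‖| < π)
    (h : (bz z, w) ∈ Xset n) (hw : w ^ n = vz a₀ z) :
    zc a₀ (⟨(bz z, w), h⟩ : XC n) = z := by
  rw [zc, af_of h hw, arg_az ha₀ hz]
  have h1 : (5 / 4 * (4 / 5 * Real.log ‖z‖) : ℝ) = Real.log ‖z‖ := by ring
  rw [h1, Real.exp_log (norm_pos_iff.2 hz0)]
  simp only [bf, bz]
  have : (‖z‖ : ℂ) ≠ 0 := by exact_mod_cast (norm_pos_iff.2 hz0).ne'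
  field_simp

theorem continuousOn_bz : ContinuousOn bz {0}ᶜ := by
  unfold bz
  apply ContinuousOn.div continuousOn_id
  · exact (Complex.continuous_ofReal.comp continuous_norm).continuousOn
  · intro z hz
    exact_mod_cast (norm_pos_iff.2 hz).ne'

theorem continuousOn_az (a₀ : ℂ) : ContinuousOn (az a₀) {0}ᶜ := by
  unfold az
  apply ContinuousOn.mul continuousOn_const
  apply Complex.continuous_exp.comp_continuousOn
  apply ContinuousOn.mul _ continuousOn_const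
  apply Complex.continuous_ofReal.comp_continuousOn
  apply ContinuousOn.mul continuousOn_const
  apply ContinuousOn.log continuous_norm.continuousOn
  intro z hz
  exact (norm_pos_iff.2 hz).ne'

theorem continuousOn_vz (a₀ : ℂ) : ContinuousOn (vz a₀) {0}ᶜ := by
  unfold vz
  apply ContinuousOn.sub
  · apply ContinuousOn.add _ continuousOn_const
    apply Complex.continuous_ofReal.comp_continuousOn
    exact Complex.continuous_re.comp_continuousOn continuousOn_bz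
  · exact Complex.continuous_conj.comp_continuousOn (continuousOn_az a₀)

theorem isOpen_annulus : IsOpen {z : ℂ | z ≠ 0 ∧ |4 / 5 * Real.log ‖z‖| < π} := by
  have h1 : ContinuousOn (fun z : ℂ => |4 / 5 * Real.log ‖z‖|) {0}ᶜ := by
    apply ContinuousOn.abs
    apply ContinuousOn.mul continuousOn_const
    apply ContinuousOn.log continuous_norm.continuousOn
    intro z hz
    exact (norm_pos_iff.2 hz).ne'
  exact h1.isOpen_inter_preimage isOpen_compl_singleton (isOpen_Iio (a := π))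

theorem continuousOn_zc (a₀ : ℂ) :
    ContinuousOn (zc a₀ : XC n → ℂ) {P | af P / a₀ ∈ slitPlane} := by
  unfold zc
  apply ContinuousOn.mul _ continuous_bf.continuousOn
  apply Complex.continuous_ofReal.comp_continuousOn
  apply Real.continuous_exp.comp_continuousOn
  apply ContinuousOn.mul continuousOn_const
  intro P hP
  apply ContinuousAt.continuousWithinAt
  have h1 : ContinuousAt (fun P : XC n => af P / a₀) P :=
    (continuous_af.div_const a₀).continuousAt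
  exact ContinuousAt.comp (g := arg) (f := fun P : XC n => af P / a₀)
    (Complex.continuousAt_arg hP) h1

/-- The coordinates `zc` for different base values differ by a positive factor, locally. -/
theorem zc_trans {a₀ : ℂ} (ha₀ : ‖a₀‖ = 1) {x : XC n} (hx : af x / a₀ ∈ slitPlane) :
    ∀ᶠ y in 𝓝 x, zc a₀ y = (Real.exp (5 / 4 * arg (af x / a₀)) : ℂ) * zc (af x) y := by
  have ha : a₀ ≠ 0 := by rw [← norm_pos_iff, ha₀]; exact one_pos
  have hax := af_ne_zero x
  have hcont : ContinuousAt (fun y : XC n => arg (af x / a₀) + arg (af y / af x)) x := by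
    apply ContinuousAt.add continuousAt_const
    have h1 : ContinuousAt (fun y : XC n => af y / af x) x :=
      (continuous_af.div_const (af x)).continuousAt
    apply ContinuousAt.comp (g := arg) (f := fun y : XC n => af y / af x) _ h1
    apply Complex.continuousAt_arg
    rw [div_self hax]; exact Complex.one_mem_slitPlane
  have hval : arg (af x / a₀) + arg (af x / af x) ∈ Ioo (-π) π := by
    rw [div_self hax, Complex.arg_one, add_zero]
    have h2 := (Complex.mem_slitPlane_iff_arg.1 hx).1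
    exact ⟨Complex.neg_pi_lt_arg _, (Complex.arg_le_pi _).lt_of_ne h2⟩
  filter_upwards [hcont.eventually_mem (isOpen_Ioo.mem_nhds hval)] with y hy
  have h1 : arg (af y / a₀) = arg (af x / a₀) + arg (af y / af x) := by
    have h2 : af y / a₀ = (af x / a₀) * (af y / af x) := by field_simp
    rw [h2]
    apply (Complex.arg_mul_eq_add_arg_iff _ _).2 ⟨hy.1, hy.2.le⟩
    · exact div_ne_zero hax ha
    · exact div_ne_zero (af_ne_zero y) hax
  rw [zc, zc, h1, mul_add, Real.exp_add]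
  push_cast; ring

open scoped Classical in
/-- The regular chart with base point `P₀`. -/
noncomputable def regChart (hn : 1 ≤ n) (P₀ : XC n) (h₀ : wf P₀ ≠ 0) :
    OpenPartialHomeomorph (XC n) ℂ where
  toFun := zc (af P₀)
  invFun z := if h : (bz z, wf P₀ * (vz (af P₀) z / wf P₀ ^ n) ^ ((n : ℂ)⁻¹)) ∈ Xset n then
    ⟨_, h⟩ else P₀
  source := {P | af P / af P₀ ∈ slitPlane ∧ wf P / wf P₀ ∈ Sec n}
  target := {z | (z ≠ 0 ∧ |4 / 5 * Real.log ‖z‖| < π) ∧ vz (af P₀) z / wf P₀ ^ n ∈ slitPlane}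
  map_source' := by
    rintro P ⟨h1, h2⟩
    refine ⟨⟨zc_ne_zero _ _, ?_⟩, ?_⟩
    · rw [norm_zc, Real.log_exp]
      have h3 : (4 / 5 * (5 / 4 * arg (af P / af P₀)) : ℝ) = arg (af P / af P₀) := by ring
      rw [h3, abs_lt]
      exact ⟨Complex.neg_pi_lt_arg _,
        (Complex.arg_le_pi _).lt_of_ne (Complex.mem_slitPlane_iff_arg.1 h1).1⟩
    · rw [vz_zc (norm_af P₀), ← div_pow]
      exact pow_mem_slitPlane hn h2
  map_target' := by
    rintro z ⟨⟨hz0, hz1⟩, hz2⟩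
    have hw : (wf P₀ * (vz (af P₀) z / wf P₀ ^ n) ^ ((n : ℂ)⁻¹)) ^ n = vz (af P₀) z := by
      rw [mul_pow, Complex.cpow_nat_inv_pow _ (by omega : n ≠ 0)]
      have := pow_ne_zero n h₀
      field_simp
    have hmem := mem_Xset_of (norm_af P₀) hz0 hw
    rw [dif_pos hmem]
    refine ⟨?_, ?_⟩
    · rw [af_of hmem hw]
      exact az_div_mem (norm_af P₀) hz1
    · have : wf (⟨(bz z, wf P₀ * (vz (af P₀) z / wf P₀ ^ n) ^ ((n : ℂ)⁻¹)), hmem⟩ : XC n) / wf P₀
          = (vz (af P₀) z / wf P₀ ^ n) ^ ((n : ℂ)⁻¹) := by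
        simp only [wf]
        exact mul_div_cancel_left₀ _ h₀
      rw [this]
      exact root_mem_Sec hn hz2
  left_inv' := by
    rintro P ⟨h1, h2⟩
    have hw : wf P₀ * (vz (af P₀) (zc (af P₀) P) / wf P₀ ^ n) ^ ((n : ℂ)⁻¹) = wf P := by
      rw [vz_zc (norm_af P₀), ← div_pow, root_pow_of_mem_Sec hn h2]
      field_simp
    simp only [hw, bz_zc]
    have : (bf P, wf P) ∈ Xset n := P.2
    rw [dif_pos this]
    rfl
  right_inv' := by
    rintro z ⟨⟨hz0, hz1⟩, hz2⟩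
    have hw : (wf P₀ * (vz (af P₀) z / wf P₀ ^ n) ^ ((n : ℂ)⁻¹)) ^ n = vz (af P₀) z := by
      rw [mul_pow, Complex.cpow_nat_inv_pow _ (by omega : n ≠ 0)]
      have := pow_ne_zero n h₀
      field_simp
    have hmem := mem_Xset_of (norm_af P₀) hz0 hw
    rw [dif_pos hmem]
    exact zc_of (norm_af P₀) hz0 hz1 hmem hw
  open_source := by
    apply IsOpen.inter
    · exact Complex.isOpen_slitPlane.preimage (continuous_af.div_const _)
    · exact (isOpen_Sec n).preimage (continuous_wf.div_const _)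
  open_target := by
    have h1 : ContinuousOn (fun z => vz (af P₀) z / wf P₀ ^ n)
        {z : ℂ | z ≠ 0 ∧ |4 / 5 * Real.log ‖z‖| < π} :=
      ((continuousOn_vz (af P₀)).mono (fun z hz => hz.1)).div_const _
    exact h1.isOpen_inter_preimage isOpen_annulus Complex.isOpen_slitPlane
  continuousOn_toFun := (continuousOn_zc _).mono fun P hP => hP.1
  continuousOn_invFun := by
    rw [Topology.IsInducing.subtypeVal.continuousOn_iff]
    have h1 : ContinuousOn (fun z : ℂ => (bz z, wf P₀ * (vz (af P₀) z / wf P₀ ^ n) ^ ((n : ℂ)⁻¹)))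
        {z | (z ≠ 0 ∧ |4 / 5 * Real.log ‖z‖| < π) ∧ vz (af P₀) z / wf P₀ ^ n ∈ slitPlane} := by
      apply ContinuousOn.prodMk
      · exact continuousOn_bz.mono fun z hz => hz.1.1
      · apply ContinuousOn.mul continuousOn_const
        apply ContinuousOn.cpow_const
        · exact ((continuousOn_vz (af P₀)).mono (fun z hz => hz.1.1)).div_const _
        · intro z hz; exact hz.2
    apply h1.congr
    rintro z ⟨⟨hz0, hz1⟩, hz2⟩
    have hw : (wf P₀ * (vz (af P₀) z / wf P₀ ^ n) ^ ((n : ℂ)⁻¹)) ^ n = vz (af P₀) z := by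
      rw [mul_pow, Complex.cpow_nat_inv_pow _ (by omega : n ≠ 0)]
      have := pow_ne_zero n h₀
      field_simp
    have hmem := mem_Xset_of (norm_af P₀) hz0 hw
    change Subtype.val (dite _ _ _) = _
    rw [dif_pos hmem]

theorem regChart_coe (hn : 1 ≤ n) (P₀ : XC n) (h₀ : wf P₀ ≠ 0) (P : XC n) :
    regChart hn P₀ h₀ P = zc (af P₀) P := rfl

theorem mem_regChart_source (hn : 1 ≤ n) (P₀ : XC n) (h₀ : wf P₀ ≠ 0) (P : XC n) :
    P ∈ (regChart hn P₀ h₀).source ↔ af P / af P₀ ∈ slitPlane ∧ wf P / wf P₀ ∈ Sec n := Iff.rfl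

theorem mem_regChart_target (hn : 1 ≤ n) (P₀ : XC n) (h₀ : wf P₀ ≠ 0) (z : ℂ) :
    z ∈ (regChart hn P₀ h₀).target ↔ (z ≠ 0 ∧ |4 / 5 * Real.log ‖z‖| < π) ∧
      vz (af P₀) z / wf P₀ ^ n ∈ slitPlane := Iff.rfl

theorem self_mem_regChart_source (hn : 1 ≤ n) (P₀ : XC n) (h₀ : wf P₀ ≠ 0) :
    P₀ ∈ (regChart hn P₀ h₀).source := by
  rw [mem_regChart_source, div_self (af_ne_zero P₀), div_self h₀]
  exact ⟨Complex.one_mem_slitPlane, one_mem_Sec hn⟩

end Pool.Agent.Lib.MP_ed6522_an
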