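import Pool.Agent.Lib.MP_ed6522_an.Ex2

/-!
# The example: cone points
-/

set_option autoImplicit false

open Set Topology Filter Complex
open scoped Real ComplexConjugate

namespace Pool.Agent.Lib.MP_ed6522_an

/-- The value of `b` at the upper cone point. -/
noncomputable def bplus : ℂ := ⟨3 / 5, 4 / 5⟩

theorem bplus_re : bplus.re = 3 / 5 := rfl
theorem bplus_im : bplus.im = 4 / 5 := rfl

theorem norm_bp : ‖bplus‖ = 1 := norm_bplus

theorem hasFDerivAt_norm_bplus : HasFDerivAt (fun z : ℂ => ‖z‖)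
    ((3 / 5 : ℝ) • reCLM + (4 / 5 : ℝ) • imCLM) bplus := by
  have h1 : (fun z : ℂ => ‖z‖) = fun z : ℂ => Real.sqrt (z.re * z.re + z.im * z.im) := by
    funext z
    rw [Complex.norm_def, Complex.normSq_apply]
  rw [h1]
  have hre : HasFDerivAt (fun z : ℂ => z.re) reCLM bplus := reCLM.hasFDerivAt
  have him : HasFDerivAt (fun z : ℂ => z.im) imCLM bplus := imCLM.hasFDerivAt
  have h3 : (((fun z : ℂ => z.re) * (fun z : ℂ => z.re)) +
      ((fun z : ℂ => z.im) * (fun z : ℂ => z.im))) bplus = 1 := by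
    change (3 / 5 * (3 / 5) + 4 / 5 * (4 / 5) : ℝ) = 1
    norm_num
  have h2 := ((hre.mul hre).add (him.mul him)).sqrt (by rw [h3]; exact one_ne_zero)
  rw [h3, Real.sqrt_one] at h2
  refine HasFDerivAt.congr_fderiv h2 ?_
  refine ContinuousLinearMap.ext fun v => ?_
  change 1 / (2 * 1) * (3 / 5 * v.re + 3 / 5 * v.re + (4 / 5 * v.im + 4 / 5 * v.im)) =
    3 / 5 * v.re + 4 / 5 * v.im
  ring

theorem hasFDerivAt_vz : ∃ L : ℂ →L[ℝ] ℂ, HasFDerivAt (vz 1) L bplus ∧
    ∀ v : ℂ, L v = (16 / 25 + 12 / 25 * I) * v := by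
  have hN := hasFDerivAt_norm_bplus
  have hN1 : ‖bplus‖ = 1 := norm_bp
  have hre : HasFDerivAt (fun z : ℂ => z.re) reCLM bplus := reCLM.hasFDerivAt
  have hinv : HasFDerivAt (fun z : ℂ => ‖z‖⁻¹) _ bplus :=
    (hasDerivAt_inv (x := ‖bplus‖) (by rw [hN1]; exact one_ne_zero)).comp_hasFDerivAt bplus hN
  have h1 := hre.mul hinv
  have h1' := (Complex.ofRealCLM.hasFDerivAt (x := bplus.re * ‖bplus‖⁻¹)).comp bplus h1
  have hlog := (hN.log (by rw [hN1]; exact one_ne_zero)).const_mul (4 / 5 : ℝ)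
  have hlog' := (Complex.ofRealCLM.hasFDerivAt (x := 4 / 5 * Real.log ‖bplus‖)).comp bplus hlog
  have hexp := (hlog'.mul_const I).cexp
  have hconj := (conjCLE.toContinuousLinearMap.hasFDerivAt
    (x := cexp (((4 / 5 * Real.log ‖bplus‖ : ℝ) : ℂ) * I))).comp bplus hexp
  have h2 := (h1'.add_const (2 / 5 : ℂ)).sub hconj
  refine ⟨_, h2.congr_of_eventuallyEq ?_, ?_⟩
  · filter_upwards with z
    simp only [vz, az, bz, one_mul]
    change _ = ((z.re * ‖z‖⁻¹ : ℝ) : ℂ) + 2 / 5 -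
      conj (cexp (((4 / 5 * Real.log ‖z‖ : ℝ) : ℂ) * I))
    rw [Complex.div_ofReal_re, div_eq_mul_inv]
  · intro v
    have hb0 : cexp ((⇑ofRealCLM ∘ fun y : ℂ => 4 / 5 * Real.log ‖y‖) bplus * I) = 1 := by
      change cexp (((4 / 5 * Real.log ‖bplus‖ : ℝ) : ℂ) * I) = 1
      rw [hN1, Real.log_one, mul_zero, Complex.ofReal_zero, zero_mul, Complex.exp_zero]
    rw [hb0, hN1]
    change (((bplus.re * (-((1 : ℝ) ^ 2)⁻¹ * (3 / 5 * v.re + 4 / 5 * v.im)) +
      (1 : ℝ)⁻¹ * v.re : ℝ)) : ℂ) -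
      conj ((1 : ℂ) * (I * ((4 / 5 * ((1 : ℝ)⁻¹ * (3 / 5 * v.re + 4 / 5 * v.im)) : ℝ) : ℂ))) = _
    rw [bplus_re, one_mul, map_mul, Complex.conj_I, Complex.conj_ofReal]
    apply Complex.ext
    · simp
      ring
    · simp
      ring

theorem hasDerivAt_vz : HasDerivAt (vz 1) (16 / 25 + 12 / 25 * I) bplus := by
  obtain ⟨L, hL, hLv⟩ := hasFDerivAt_vz
  rw [hasDerivAt_iff_isLittleO]
  have := hasFDerivAt_iff_isLittleO.1 hL
  simp only [hLv] at this
  simpa only [smul_eq_mul, mul_comm] using this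

/-- The quotient `V(z) / (z - b₊)`. -/
noncomputable def Hf (z : ℂ) : ℂ := dslope (vz 1) bplus z

theorem vz_bplus : vz 1 bplus = 0 := by
  rw [vz, az, bz, norm_bp, Real.log_one, mul_zero, Complex.ofReal_zero, zero_mul,
    Complex.exp_zero, Complex.ofReal_one, div_one, bplus_re]
  simp
  norm_num

theorem Hf_mul (z : ℂ) : (z - bplus) * Hf z = vz 1 z := by
  have := sub_smul_dslope (vz 1) bplus z
  rw [vz_bplus, sub_zero, smul_eq_mul] at this
  exact this

theorem Hf_bplus : Hf bplus = 16 / 25 + 12 / 25 * I := by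
  rw [Hf, dslope_same, hasDerivAt_vz.deriv]

theorem continuousAt_Hf {z : ℂ} (hz : z ≠ 0) : ContinuousAt Hf z := by
  by_cases h : z = bplus
  · rw [h]
    exact continuousAt_dslope_same.2 hasDerivAt_vz.differentiableAt
  · apply (continuousAt_dslope_of_ne h).2
    exact (continuousOn_vz 1).continuousAt (isOpen_compl_singleton.mem_nhds hz)

theorem bplus_ne_zero : bplus ≠ 0 := by
  rw [← norm_pos_iff, norm_bp]; exact one_pos

theorem exists_rho0 : ∃ ρ : ℝ, 0 < ρ ∧ ∀ z ∈ Metric.ball bplus ρ,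
    (z ≠ 0 ∧ |4 / 5 * Real.log ‖z‖| < π) ∧ Hf z ∈ slitPlane := by
  have h1 : ∀ᶠ z in 𝓝 bplus, z ≠ 0 ∧ |4 / 5 * Real.log ‖z‖| < π := by
    apply isOpen_annulus.eventually_mem
    refine ⟨bplus_ne_zero, ?_⟩
    rw [norm_bp, Real.log_one, mul_zero, abs_zero]
    exact Real.pi_pos
  have h2 : ∀ᶠ z in 𝓝 bplus, Hf z ∈ slitPlane := by
    apply (continuousAt_Hf bplus_ne_zero).eventually_mem
    apply Complex.isOpen_slitPlane.mem_nhds
    rw [Hf_bplus]
    left
    simp
  obtain ⟨ρ, hρ, h⟩ := Metric.eventually_nhds_iff.1 (h1.and h2)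
  exact ⟨ρ, hρ, fun z hz => h hz⟩

/-- The radius of the domain of the cone charts. -/
noncomputable def rho0 : ℝ := Classical.choose exists_rho0

theorem rho0_pos : 0 < rho0 := (Classical.choose_spec exists_rho0).1

theorem rho0_spec : ∀ z ∈ Metric.ball bplus rho0,
    (z ≠ 0 ∧ |4 / 5 * Real.log ‖z‖| < π) ∧ Hf z ∈ slitPlane :=
  (Classical.choose_spec exists_rho0).2

/-- A root of `Hf`. -/
noncomputable def rf (n : ℕ) (z : ℂ) : ℂ := Hf z ^ ((n : ℂ)⁻¹)

variable {n : ℕ}

theorem rf_pow (hn : 1 ≤ n) (z : ℂ) : rf n z ^ n = Hf z :=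
  Complex.cpow_nat_inv_pow _ (by omega)

theorem rf_ne_zero (hn : 1 ≤ n) {z : ℂ} (hz : z ∈ Metric.ball bplus rho0) : rf n z ≠ 0 := by
  intro h
  have h1 := rf_pow hn z
  rw [h, zero_pow (by omega)] at h1
  exact slitPlane_ne_zero (rho0_spec z hz).2 h1.symm

theorem continuousOn_rf : ContinuousOn (rf n) (Metric.ball bplus rho0) := by
  apply ContinuousOn.cpow_const
  · intro z hz
    exact (continuousAt_Hf (rho0_spec z hz).1.1).continuousWithinAt
  · intro z hz
    exact (rho0_spec z hz).2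

theorem cone_w_pow (hn : 1 ≤ n) (ζ : ℂ) :
    (ζ * rf n (bplus + ζ ^ n)) ^ n = vz 1 (bplus + ζ ^ n) := by
  rw [mul_pow, rf_pow hn, ← Hf_mul]; ring

theorem cone_zeta_pow (hn : 1 ≤ n) {P : XC n} (hP : zc 1 P ∈ Metric.ball bplus rho0) :
    (wf P / rf n (zc 1 P)) ^ n = zc 1 P - bplus := by
  have h1 : Hf (zc 1 P) ≠ 0 := slitPlane_ne_zero (rho0_spec _ hP).2
  rw [div_pow, rf_pow hn, ← vz_zc (norm_one), ← Hf_mul]
  field_simp

open scoped Classical in
/-- The cone chart at the upper cone point. -/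
noncomputable def coneChart (hn : 1 ≤ n) : OpenPartialHomeomorph (XC n) ℂ where
  toFun P := wf P / rf n (zc 1 P)
  invFun ζ := if h : (bz (bplus + ζ ^ n), ζ * rf n (bplus + ζ ^ n)) ∈ Xset n then
    ⟨_, h⟩ else splus hn
  source := {P | af P / 1 ∈ slitPlane ∧ zc 1 P ∈ Metric.ball bplus rho0}
  target := {ζ | bplus + ζ ^ n ∈ Metric.ball bplus rho0}
  map_source' := by
    rintro P ⟨h1, h2⟩
    change bplus + (wf P / rf n (zc 1 P)) ^ n ∈ Metric.ball bplus rho0
    rw [cone_zeta_pow hn h2]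
    rwa [add_sub_cancel]
  map_target' := by
    intro ζ hζ
    change bplus + ζ ^ n ∈ Metric.ball bplus rho0 at hζ
    have hz := (rho0_spec _ hζ).1
    have hw := cone_w_pow hn ζ
    have hmem := mem_Xset_of norm_one hz.1 hw
    rw [dif_pos hmem]
    refine ⟨?_, ?_⟩
    · rw [af_of hmem hw]
      exact az_div_mem norm_one hz.2
    · rw [zc_of norm_one hz.1 hz.2 hmem hw]
      exact hζ
  left_inv' := by
    rintro P ⟨h1, h2⟩
    have h3 := cone_zeta_pow hn h2
    have h4 : bplus + (wf P / rf n (zc 1 P)) ^ n = zc 1 P := by rw [h3]; ring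
    have h5 : wf P / rf n (zc 1 P) * rf n (zc 1 P) = wf P :=
      div_mul_cancel₀ _ (rf_ne_zero hn h2)
    simp only [h4, h5, bz_zc]
    have : (bf P, wf P) ∈ Xset n := P.2
    rw [dif_pos this]
    rfl
  right_inv' := by
    intro ζ hζ
    change bplus + ζ ^ n ∈ Metric.ball bplus rho0 at hζ
    have hz := (rho0_spec _ hζ).1
    have hw := cone_w_pow hn ζ
    have hmem := mem_Xset_of norm_one hz.1 hw
    rw [dif_pos hmem, zc_of norm_one hz.1 hz.2 hmem hw]
    change ζ * rf n (bplus + ζ ^ n) / rf n (bplus + ζ ^ n) = ζ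
    exact mul_div_cancel_right₀ _ (rf_ne_zero hn hζ)
  open_source := by
    have h1 : ContinuousOn (zc 1 : XC n → ℂ) {P | af P / 1 ∈ slitPlane} := continuousOn_zc 1
    exact h1.isOpen_inter_preimage (Complex.isOpen_slitPlane.preimage (continuous_af.div_const _))
      Metric.isOpen_ball
  open_target := by
    apply Metric.isOpen_ball.preimage
    fun_prop
  continuousOn_toFun := by
    apply ContinuousOn.div continuous_wf.continuousOn
    · apply continuousOn_rf.comp ((continuousOn_zc 1).mono fun P hP => hP.1)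
      intro P hP; exact hP.2
    · intro P hP; exact rf_ne_zero hn hP.2
  continuousOn_invFun := by
    rw [Topology.IsInducing.subtypeVal.continuousOn_iff]
    have h0 : Continuous (fun ζ : ℂ => bplus + ζ ^ n) := by fun_prop
    have h1 : ContinuousOn (fun ζ : ℂ => (bz (bplus + ζ ^ n), ζ * rf n (bplus + ζ ^ n)))
        {ζ | bplus + ζ ^ n ∈ Metric.ball bplus rho0} := by
      apply ContinuousOn.prodMk
      · apply continuousOn_bz.comp h0.continuousOn
        intro ζ hζ
        exact (rho0_spec _ hζ).1.1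
      · apply ContinuousOn.mul continuousOn_id
        apply continuousOn_rf.comp h0.continuousOn
        intro ζ hζ; exact hζ
    apply h1.congr
    intro ζ hζ
    change bplus + ζ ^ n ∈ Metric.ball bplus rho0 at hζ
    have hz := (rho0_spec _ hζ).1
    have hw := cone_w_pow hn ζ
    have hmem := mem_Xset_of norm_one hz.1 hw
    change Subtype.val (dite _ _ _) = _
    rw [dif_pos hmem]

theorem coneChart_pow (hn : 1 ≤ n) {P : XC n} (hP : P ∈ (coneChart hn).source) :
    (coneChart hn P) ^ n = zc 1 P - bplus := cone_zeta_pow hn hP.2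

theorem af_splus (hn : 1 ≤ n) : af (splus hn) = 1 := by
  rw [af]
  have h1 : wf (splus hn) = 0 := rfl
  have h2 : (bf (splus hn)).re = 3 / 5 := rfl
  rw [h1, h2, zero_pow (by omega)]
  have h3 : ((3 / 5 : ℝ) : ℂ) + 2 / 5 - 0 = 1 := by push_cast; norm_num
  rw [h3, map_one]

theorem zc_splus (hn : 1 ≤ n) : zc 1 (splus hn) = bplus := by
  rw [zc, af_splus, div_one, Complex.arg_one, mul_zero, Real.exp_zero, Complex.ofReal_one, one_mul]
  rfl

theorem splus_mem (hn : 1 ≤ n) : splus hn ∈ (coneChart hn).source := by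
  refine ⟨?_, ?_⟩
  · rw [af_splus, div_one]; exact Complex.one_mem_slitPlane
  · rw [zc_splus]; exact Metric.mem_ball_self rho0_pos

theorem coneChart_splus (hn : 1 ≤ n) : coneChart hn (splus hn) = 0 := by
  change wf (splus hn) / _ = 0
  have h1 : wf (splus hn) = 0 := rfl
  rw [h1, zero_div]

/-- On the domain of the cone chart the only point with `w = 0` is the cone point. -/
theorem wf_ne_zero_of_cone (hn : 1 ≤ n) {P : XC n} (hP : P ∈ (coneChart hn).source)
    (hne : P ≠ splus hn) : wf P ≠ 0 := by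
  intro h
  have h1 : coneChart hn P = 0 := by
    change wf P / _ = 0
    rw [h, zero_div]
  apply hne
  apply (coneChart hn).injOn hP (splus_mem hn)
  rw [h1, coneChart_splus]

end Pool.Agent.Lib.MP_ed6522_an
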