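import Pool.Agent.Lib.MP_ed6522_an.Ex3

/-!
# The example: connectedness
-/

set_option autoImplicit false

open Set Topology Filter Complex
open scoped Real ComplexConjugate

namespace Pool.Agent.Lib.MP_ed6522_an

theorem isOpenMap_pow_complex {n : ℕ} (hn : 1 ≤ n) : IsOpenMap (fun w : ℂ => w ^ n) := by
  have h1 : AnalyticOnNhd ℂ (fun w : ℂ => w ^ n) univ := by
    have : Differentiable ℂ (fun w : ℂ => w ^ n) := by fun_prop
    exact this.differentiableOn.analyticOnNhd isOpen_univ
  have hgoal : (∃ w, ∀ z : ℂ, z ^ n = w) ∨ IsOpenMap (fun w : ℂ => w ^ n) := by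
    rcases h1.is_constant_or_isOpen isPreconnected_univ with ⟨w, hw⟩ | h
    · left; exact ⟨w, fun z => hw z (mem_univ z)⟩
    · right
      intro s hs
      exact h s (subset_univ s) hs
  rcases hgoal with ⟨w, hw⟩ | h
  · exfalso
    have h0 := hw 0
    have h1 := hw 1
    rw [zero_pow (by omega)] at h0
    rw [one_pow] at h1
    rw [← h0] at h1
    exact one_ne_zero h1
  · exact h

variable {n : ℕ}

/-- The torus. -/
def torus : Set (ℂ × ℂ) := Metric.sphere (0 : ℂ) 1 ×ˢ Metric.sphere (0 : ℂ) 1

theorem isPreconnected_torus : IsPreconnected torus := by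
  have h : IsConnected (Metric.sphere (0 : ℂ) 1) := by
    apply isConnected_sphere _ _ zero_le_one
    rw [Complex.rank_real_complex]
    norm_num
  exact (h.prod h).isPreconnected

/-- The projection to the torus. -/
noncomputable def proj (P : XC n) : ℂ × ℂ := (bf P, af P)

theorem continuous_proj : Continuous (proj : XC n → ℂ × ℂ) :=
  continuous_bf.prodMk continuous_af

theorem proj_mem (P : XC n) : proj P ∈ torus := by
  refine ⟨?_, ?_⟩
  · exact mem_sphere_zero_iff_norm.2 (norm_bf P)
  · exact mem_sphere_zero_iff_norm.2 (norm_af P)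

/-- The projection is open onto the torus. -/
theorem proj_open (hn : 1 ≤ n) (P : XC n) {O : Set (XC n)} (hO : O ∈ 𝓝 P) :
    ∀ᶠ q in 𝓝 (proj P), q ∈ torus → ∃ Q ∈ O, proj Q = q := by
  rw [nhds_subtype_eq_comap, mem_comap] at hO
  obtain ⟨W, hW, hWO⟩ := hO
  rw [← Prod.mk.eta (p := P.1), nhds_prod_eq] at hW
  obtain ⟨W₁, hW₁, W₂, hW₂, hsub⟩ := mem_prod_iff.1 hW
  -- image of `W₂` under the power map
  have hpow : (fun w : ℂ => w ^ n) '' W₂ ∈ 𝓝 (wf P ^ n) :=
    (isOpenMap_pow_complex hn).image_mem_nhds hW₂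
  have hcont : Continuous (fun q : ℂ × ℂ => (((q.1.re : ℝ) : ℂ) + 2 / 5 - conj q.2)) := by
    have h1 : Continuous fun q : ℂ × ℂ => ((q.1.re : ℝ) : ℂ) :=
      Complex.continuous_ofReal.comp (Complex.continuous_re.comp continuous_fst)
    have h2 : Continuous fun q : ℂ × ℂ => conj q.2 :=
      Complex.continuous_conj.comp continuous_snd
    exact (h1.add continuous_const).sub h2
  have h3 : ∀ᶠ q in 𝓝 (proj P), (((q.1.re : ℝ) : ℂ) + 2 / 5 - conj q.2) ∈
      (fun w : ℂ => w ^ n) '' W₂ := by
    apply hcont.continuousAt.eventually_mem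
    have : (((proj P).1.re : ℝ) : ℂ) + 2 / 5 - conj (proj P).2 = wf P ^ n := (wf_pow P).symm
    rw [this]
    exact hpow
  have h4 : ∀ᶠ q in 𝓝 (proj P), q.1 ∈ W₁ :=
    continuous_fst.continuousAt.eventually_mem (f := Prod.fst) (x := proj P) hW₁
  filter_upwards [h3, h4] with q hq3 hq4 hqT
  obtain ⟨w, hw, hwq⟩ := hq3
  simp only at hwq
  have hmem : (q.1, w) ∈ Xset n := by
    refine ⟨by simpa using hqT.1, ?_⟩
    simp only
    rw [hwq]
    have : (((q.1.re : ℝ) : ℂ) + 2 / 5 - (((q.1.re : ℝ) : ℂ) + 2 / 5 - conj q.2)) = conj q.2 := by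
      ring
    rw [this, RCLike.norm_conj]
    simpa using hqT.2
  refine ⟨⟨(q.1, w), hmem⟩, hWO ?_, ?_⟩
  · exact hsub ⟨hq4, hw⟩
  · apply Prod.ext
    · rfl
    · change conj (((q.1.re : ℝ) : ℂ) + 2 / 5 - w ^ n) = q.2
      rw [hwq]
      have : (((q.1.re : ℝ) : ℂ) + 2 / 5 - (((q.1.re : ℝ) : ℂ) + 2 / 5 - conj q.2)) = conj q.2 := by
        ring
      rw [this, Complex.conj_conj]

/-- The projection as a map to the torus. -/
noncomputable def projT (P : XC n) : torus := ⟨proj P, proj_mem P⟩

theorem continuous_projT : Continuous (projT : XC n → torus) :=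
  continuous_proj.subtype_mk _

theorem isOpenMap_projT (hn : 1 ≤ n) : IsOpenMap (projT : XC n → torus) := by
  rw [isOpenMap_iff_nhds_le]
  intro P s hs
  have h1 := proj_open hn P (mem_map.1 hs)
  have h2 : Tendsto (Subtype.val : torus → ℂ × ℂ) (𝓝 (projT P)) (𝓝 (proj P)) :=
    continuous_subtype_val.tendsto _
  filter_upwards [h2.eventually h1] with q hq
  obtain ⟨Q, hQ, hQq⟩ := hq q.2
  have h3 : projT Q = q := Subtype.ext hQq
  have h4 : projT Q ∈ s := hQ
  rwa [h3] at h4

/-- Images of clopen nonempty sets are the whole torus. -/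
theorem projT_clopen (hn : 1 ≤ n) {A : Set (XC n)} (hA : IsClopen A) (hne : A.Nonempty) :
    projT '' A = univ := by
  have := compactSpace_XC hn
  have hpre : PreconnectedSpace torus := Subtype.preconnectedSpace isPreconnected_torus
  have hcl : IsClosed (projT '' A) := (hA.1.isCompact.image continuous_projT).isClosed
  have hop : IsOpen (projT '' A) := isOpenMap_projT hn A hA.2
  rcases isClopen_iff.1 ⟨hcl, hop⟩ with h | h
  · exact absurd (image_eq_empty.1 h) hne.ne_empty
  · exact h

theorem connectedSpace_XC (hn : 1 ≤ n) : ConnectedSpace (XC n) := by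
  have huniq : ∀ P : XC n, projT P = projT (splus hn) → P = splus hn := by
    intro P hP
    have h1 : proj P = proj (splus hn) := congrArg Subtype.val hP
    have h2 : bf P = bf (splus hn) := (Prod.ext_iff.1 h1).1
    have h3 : af P = af (splus hn) := (Prod.ext_iff.1 h1).2
    apply ext_XC h2
    have h4 : wf P ^ n = 0 := by
      rw [wf_pow, h2, h3, ← wf_pow]
      change (0 : ℂ) ^ n = 0
      exact zero_pow (by omega)
    exact pow_eq_zero_iff (by omega) |>.1 h4
  have hclopen : ∀ A : Set (XC n), IsClopen A → A.Nonempty → splus hn ∈ A := by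
    intro A hA hne
    have h1 : projT (splus hn) ∈ projT '' A := by
      rw [projT_clopen hn hA hne]; trivial
    obtain ⟨P, hP, hPe⟩ := h1
    rwa [← huniq P hPe]
  have hpre : PreconnectedSpace (XC n) := by
    apply preconnectedSpace_iff_clopen.2
    intro A hA
    by_contra hcon
    push Not at hcon
    have h1 := hclopen A hA hcon.1
    have h2 := hclopen Aᶜ hA.compl (by
      rw [nonempty_compl]; exact hcon.2)
    exact h2 h1
  exact { toPreconnectedSpace := hpre, toNonempty := ⟨splus hn⟩ }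

end Pool.Agent.Lib.MP_ed6522_an
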