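import Pool.Agent.Lib.MP_ed6522_an.Ex4

/-!
# The example: the affine surface
-/

set_option autoImplicit false

open Set Topology Filter Complex
open scoped Real ComplexConjugate

namespace Pool.Agent.Lib.MP_ed6522_an

variable {n : ℕ}

/-- Complex conjugation of `b` as a homeomorphism. -/
noncomputable def flip (n : ℕ) : XC n ≃ₜ XC n where
  toFun P := ⟨(conj P.1.1, P.1.2), by
    obtain ⟨h1, h2⟩ := P.2
    refine ⟨?_, ?_⟩
    · simp only; rw [RCLike.norm_conj]; exact h1
    · simp only; rw [Complex.conj_re]; exact h2⟩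
  invFun P := ⟨(conj P.1.1, P.1.2), by
    obtain ⟨h1, h2⟩ := P.2
    refine ⟨?_, ?_⟩
    · simp only; rw [RCLike.norm_conj]; exact h1
    · simp only; rw [Complex.conj_re]; exact h2⟩
  left_inv P := by
    apply Subtype.ext
    simp
  right_inv P := by
    apply Subtype.ext
    simp
  continuous_toFun := by
    apply Continuous.subtype_mk
    apply Continuous.prodMk
    · exact Complex.continuous_conj.comp (continuous_fst.comp continuous_subtype_val)
    · exact continuous_snd.comp continuous_subtype_val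
  continuous_invFun := by
    apply Continuous.subtype_mk
    apply Continuous.prodMk
    · exact Complex.continuous_conj.comp (continuous_fst.comp continuous_subtype_val)
    · exact continuous_snd.comp continuous_subtype_val

theorem bf_flip (P : XC n) : bf (flip n P) = conj (bf P) := rfl

theorem wf_flip (P : XC n) : wf (flip n P) = wf P := rfl

theorem af_flip (P : XC n) : af (flip n P) = af P := by
  rw [af, af, bf_flip, wf_flip, Complex.conj_re]

theorem zc_flip (a₀ : ℂ) (P : XC n) : zc a₀ (flip n P) = conj (zc a₀ P) := by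
  rw [zc, zc, bf_flip, af_flip, map_mul, Complex.conj_ofReal]

/-- The atlas of the example. -/
def atlasX (n : ℕ) : Set (OpenPartialHomeomorph (XC n) ℂ) :=
  {e | ∀ x ∈ e.source, wf x ≠ 0 ∧
    ∃ a : ℝ, 0 < a ∧ ∃ c : ℂ, ∀ᶠ y in 𝓝 x, e y = a * zc (af x) y + c}

theorem regChart_mem (hn : 1 ≤ n) (P₀ : XC n) (h₀ : wf P₀ ≠ 0) : regChart hn P₀ h₀ ∈ atlasX n := by
  rintro x ⟨h1, h2⟩
  refine ⟨?_, ?_⟩
  · intro h
    have := slitPlane_ne_zero h2.1
    rw [h, zero_div] at this
    exact this rfl
  · refine ⟨Real.exp (5 / 4 * arg (af x / af P₀)), Real.exp_pos _, 0, ?_⟩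
    filter_upwards [zc_trans (norm_af P₀) h1] with y hy
    rw [regChart_coe, hy, add_zero]

/-- The cone condition for a coordinate whose `n`-th power is an affine coordinate. -/
theorem coneAt_of (ψ : OpenPartialHomeomorph (XC n) ℂ) (s : XC n) (hs : s ∈ ψ.source)
    (h0 : ψ s = 0) (b₀ : ℂ) (hslit : ∀ P ∈ ψ.source, af P / 1 ∈ slitPlane)
    (hpow : ∀ P ∈ ψ.source, ψ P ^ n = zc 1 P - b₀) (hne : ∀ P ∈ ψ.source, P ≠ s → wf P ≠ 0) :
    ConeAt (atlasX n) (singX n) s n := by
  refine ⟨ψ, hs, h0, ?_⟩
  intro x hx hxs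
  refine ⟨hne x hx hxs, ?_⟩
  intro e he hxe
  obtain ⟨-, a, ha, c, hc⟩ := he x hxe
  have hE : (0 : ℝ) < Real.exp (5 / 4 * arg (af x / 1)) := Real.exp_pos _
  have hE' : ((Real.exp (5 / 4 * arg (af x / 1)) : ℝ) : ℂ) ≠ 0 := by exact_mod_cast hE.ne'
  refine ⟨a * (Real.exp (5 / 4 * arg (af x / 1)))⁻¹, mul_pos ha (inv_pos.2 hE),
    a * ((Real.exp (5 / 4 * arg (af x / 1)))⁻¹ : ℝ) * b₀ + c, ?_⟩
  filter_upwards [hc, zc_trans norm_one (hslit x hx), ψ.open_source.mem_nhds hx] with y hy hy' hys
  rw [hpow y hys, hy', hy]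
  push_cast
  push_cast at hE'
  field_simp
  ring

theorem coneAt_splus (hn : 1 ≤ n) : ConeAt (atlasX n) (singX n) (splus hn) n :=
  coneAt_of (coneChart hn) (splus hn) (splus_mem hn) (coneChart_splus hn) bplus
    (fun _ hP => hP.1) (fun _ hP => coneChart_pow hn hP) (fun _ hP hne => wf_ne_zero_of_cone hn hP hne)

theorem flip_sminus (hn : 1 ≤ n) : flip n (sminus hn) = splus hn := by
  apply ext_XC
  · rw [bf_flip]
    apply Complex.ext
    · rfl
    · change -(-(4 / 5 : ℝ)) = 4 / 5
      ring
  · rfl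

/-- The cone chart at the lower cone point. -/
noncomputable def coneChart' (hn : 1 ≤ n) : OpenPartialHomeomorph (XC n) ℂ :=
  ((flip n).transOpenPartialHomeomorph (coneChart hn)).transHomeomorph conjLIE.toHomeomorph

theorem coneChart'_coe (hn : 1 ≤ n) (P : XC n) :
    coneChart' hn P = conj (coneChart hn (flip n P)) := rfl

theorem coneChart'_source (hn : 1 ≤ n) (P : XC n) :
    P ∈ (coneChart' hn).source ↔ flip n P ∈ (coneChart hn).source := Iff.rfl

theorem coneAt_sminus (hn : 1 ≤ n) : ConeAt (atlasX n) (singX n) (sminus hn) n := by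
  apply coneAt_of (coneChart' hn) (sminus hn) _ _ (conj bplus)
  · intro P hP
    have := ((coneChart'_source hn P).1 hP).1
    rwa [af_flip] at this
  · intro P hP
    rw [coneChart'_coe, ← map_pow, coneChart_pow hn ((coneChart'_source hn P).1 hP), map_sub,
      zc_flip, Complex.conj_conj]
  · intro P hP hne
    rw [← wf_flip]
    apply wf_ne_zero_of_cone hn ((coneChart'_source hn P).1 hP)
    intro h
    apply hne
    rw [← flip_sminus hn] at h
    exact (flip n).injective h
  · rw [coneChart'_source, flip_sminus]; exact splus_mem hn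
  · rw [coneChart'_coe, flip_sminus, coneChart_splus, map_zero]

theorem coneAt_sing (hn : 1 ≤ n) (s : XC n) (hs : s ∈ singX n) :
    ConeAt (atlasX n) (singX n) s n := by
  rw [singX_eq hn] at hs
  rcases hs with rfl | hs
  · exact coneAt_splus hn
  · rw [mem_singleton_iff] at hs
    rw [hs]; exact coneAt_sminus hn

/-- The example as an affine surface. -/
noncomputable def surf (n : ℕ) (hn : 2 ≤ n) : AffSurf :=
  have hn1 : 1 ≤ n := le_trans (by norm_num) hn
  { carrier := XC n
    topo := inferInstance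
    compact := compactSpace_XC hn1
    t2 := inferInstance
    conn := connectedSpace_XC hn1
    sing := singX n
    sing_finite := singX_finite hn1
    atlas := atlasX n
    avoid := fun e he x hx => (he x hx).1
    cover := fun x hx => ⟨regChart hn1 x hx, regChart_mem hn1 x hx,
      self_mem_regChart_source hn1 x hx⟩
    compat := by
      intro e he e' he' x hx hx'
      obtain ⟨-, a, ha, c, hc⟩ := he x hx
      obtain ⟨-, a', ha', c', hc'⟩ := he' x hx'
      refine ⟨a' * a⁻¹, mul_pos ha' (inv_pos.2 ha), c' - a' * (a⁻¹ : ℝ) * c, ?_⟩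
      have ha0 : (a : ℂ) ≠ 0 := by exact_mod_cast ha.ne'
      filter_upwards [hc, hc'] with y hy hy'
      rw [hy, hy']
      push_cast
      field_simp
      ring
    maximal := by
      intro e he hcompat x hx
      have hxr : wf x ≠ 0 := he x hx
      refine ⟨hxr, ?_⟩
      obtain ⟨a, ha, c, hc⟩ := hcompat _ (regChart_mem hn1 x hxr) x hx
        (self_mem_regChart_source hn1 x hxr)
      refine ⟨a⁻¹, inv_pos.2 ha, -((a⁻¹ : ℝ) * c), ?_⟩
      have ha0 : (a : ℂ) ≠ 0 := by exact_mod_cast ha.ne'
      filter_upwards [hc] with y hy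
      rw [regChart_coe] at hy
      rw [hy]
      push_cast
      field_simp
      ring
    cone := fun s hs => ⟨n, hn, coneAt_sing hn1 s hs⟩ }

theorem sum_sing (hn : 1 ≤ n) (f : XC n → ℤ) :
    ∑ s ∈ (singX_finite hn).toFinset, f s = f (splus hn) + f (sminus hn) := by
  have h1 : (singX_finite hn).toFinset = {splus hn, sminus hn} := by
    ext s
    rw [Set.Finite.mem_toFinset, singX_eq hn]
    simp
  rw [h1, Finset.sum_pair (splus_ne_sminus hn)]

theorem surf_genus (n : ℕ) (hn : 2 ≤ n) : HasGenus (surf n hn) n := by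
  have hn1 : 1 ≤ n := le_trans (by norm_num) hn
  refine ⟨fun _ => n, fun s hs => ⟨hn, coneAt_sing hn1 s hs⟩, ?_⟩
  refine (sum_sing hn1 (fun _ => 1 - (n : ℤ))).trans ?_
  ring

end Pool.Agent.Lib.MP_ed6522_an
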