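import Pool.Agent.Lib.MP_ed6522_an.Ex5

/-!
# The example: closed chains in every direction
-/

set_option autoImplicit false

open Set Topology Filter Complex
open scoped Real ComplexConjugate

namespace Pool.Agent.Lib.MP_ed6522_an

theorem arg_exp_of {θ : ℝ} (h : |θ| < π) : arg (exp ((θ : ℂ) * I)) = θ := by
  rw [Complex.arg_exp_mul_I]
  have h := abs_lt.1 h
  apply (toIocMod_eq_self _).2
  constructor
  · exact h.1
  · have : -π + 2 * π = π := by ring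
    rw [this]; exact h.2.le

theorem exp_mem_slitPlane {θ : ℝ} (h : |θ| < π) : exp ((θ : ℂ) * I) ∈ slitPlane := by
  rw [Complex.mem_slitPlane_iff_arg, arg_exp_of h]
  exact ⟨(abs_lt.1 h).2.ne, Complex.exp_ne_zero _⟩

theorem norm_exp_sub_one_le (θ : ℝ) : ‖exp ((θ : ℂ) * I) - 1‖ ≤ |θ| := by
  rw [mul_comm]
  have := Real.norm_exp_I_mul_ofReal_sub_one_le (x := θ)
  rwa [Real.norm_eq_abs] at this

theorem div_mem_slitPlane {v v' : ℂ} (h0 : v ≠ 0) (h : ‖v' - v‖ < ‖v‖) : v' / v ∈ slitPlane := by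
  have h1 : ‖(v' - v) / v‖ < 1 := by
    rw [norm_div, div_lt_one (norm_pos_iff.2 h0)]; exact h
  have h2 := Complex.mem_slitPlane_of_norm_lt_one h1
  have h3 : 1 + (v' - v) / v = v' / v := by field_simp; ring
  rwa [h3] at h2

/-- The step. -/
noncomputable def hstep : ℝ := π / 12

theorem hstep_pos : 0 < hstep := by unfold hstep; positivity

theorem hstep_lt : hstep < 2 / 5 := by
  unfold hstep
  have := Real.pi_lt_d2
  linarith

theorem hstep_lt_pi : hstep < π := by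
  unfold hstep
  have := Real.pi_pos
  linarith

/-- The values of `a` along the leaf. -/
noncomputable def aj (j : ℕ) : ℂ := exp (((j * hstep : ℝ) : ℂ) * I)

theorem norm_aj (j : ℕ) : ‖aj j‖ = 1 := Complex.norm_exp_ofReal_mul_I _

theorem aj_ne_zero (j : ℕ) : aj j ≠ 0 := Complex.exp_ne_zero _

theorem aj_succ (j : ℕ) : aj (j + 1) = aj j * exp ((hstep : ℂ) * I) := by
  rw [aj, aj, ← Complex.exp_add]
  congr 1
  push_cast; ring

theorem aj_period (j : ℕ) : aj (j + 24) = aj j := by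
  have h : (((↑(j + 24) : ℝ) * hstep : ℝ) : ℂ) * I = ((j * hstep : ℝ) : ℂ) * I + 2 * π * I := by
    unfold hstep
    push_cast; ring
  rw [aj, aj, h, Complex.exp_add, Complex.exp_two_pi_mul_I, mul_one]

variable {n : ℕ}

section
variable (b : ℂ)

/-- The values of `v = w ^ n` along the leaf. -/
noncomputable def vj (j : ℕ) : ℂ := (b.re : ℂ) + 2 / 5 - conj (aj j)

theorem vj_period (j : ℕ) : vj b (j + 24) = vj b j := by rw [vj, vj, aj_period]

variable {b}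

theorem norm_vj (hb1 : -1 ≤ b.re) (hb2 : b.re ≤ 0) (j : ℕ) : 2 / 5 ≤ ‖vj b j‖ := by
  have h1 : ‖conj (aj j)‖ = 1 := by rw [RCLike.norm_conj, norm_aj]
  have h2 : ‖(b.re : ℂ) + 2 / 5‖ ≤ 3 / 5 := by
    have : (b.re : ℂ) + 2 / 5 = ((b.re + 2 / 5 : ℝ) : ℂ) := by push_cast; ring
    rw [this, Complex.norm_real, Real.norm_eq_abs, abs_le]
    constructor <;> linarith
  have h3 : ‖conj (aj j)‖ ≤ ‖(b.re : ℂ) + 2 / 5‖ + ‖vj b j‖ := by
    have : conj (aj j) = ((b.re : ℂ) + 2 / 5) - vj b j := by rw [vj]; ring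
    rw [this]
    exact norm_sub_le _ _
  linarith

theorem vj_ne_zero (hb1 : -1 ≤ b.re) (hb2 : b.re ≤ 0) (j : ℕ) : vj b j ≠ 0 := by
  rw [← norm_pos_iff]
  have := norm_vj hb1 hb2 j
  linarith

/-- Points near the leaf. -/
theorem near_vj (j : ℕ) (δ : ℝ) :
    ‖((b.re : ℂ) + 2 / 5 - conj (aj j * exp ((δ : ℂ) * I))) - vj b j‖ ≤ |δ| := by
  have : ((b.re : ℂ) + 2 / 5 - conj (aj j * exp ((δ : ℂ) * I))) - vj b j =
      -conj (aj j * (exp ((δ : ℂ) * I) - 1)) := by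
    rw [vj, map_mul, map_mul, map_sub, map_one]; ring
  rw [this, norm_neg, RCLike.norm_conj, norm_mul, norm_aj, one_mul]
  exact norm_exp_sub_one_le δ

theorem ratio_mem (hb1 : -1 ≤ b.re) (hb2 : b.re ≤ 0) (j : ℕ) {δ : ℝ} (hδ : |δ| ≤ hstep) :
    ((b.re : ℂ) + 2 / 5 - conj (aj j * exp ((δ : ℂ) * I))) / vj b j ∈ slitPlane := by
  apply div_mem_slitPlane (vj_ne_zero hb1 hb2 j)
  refine (near_vj j δ).trans_lt (hδ.trans_lt (hstep_lt.trans_le (norm_vj hb1 hb2 j)))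

theorem ratio_mem' (hb1 : -1 ≤ b.re) (hb2 : b.re ≤ 0) (j : ℕ) :
    vj b (j + 1) / vj b j ∈ slitPlane := by
  have := ratio_mem hb1 hb2 j (δ := hstep) (by rw [abs_of_pos hstep_pos])
  rwa [← aj_succ] at this

variable (b n)

/-- The values of `w` along the leaf. -/
noncomputable def wj : ℕ → ℂ
  | 0 => (vj b 0) ^ ((n : ℂ)⁻¹)
  | (j + 1) => wj j * (vj b (j + 1) / vj b j) ^ ((n : ℂ)⁻¹)

variable {b n}

theorem wj_succ (j : ℕ) :
    wj n b (j + 1) = wj n b j * (vj b (j + 1) / vj b j) ^ ((n : ℂ)⁻¹) := rfl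

theorem wj_pow (hn : 1 ≤ n) (hb1 : -1 ≤ b.re) (hb2 : b.re ≤ 0) (j : ℕ) :
    wj n b j ^ n = vj b j := by
  induction j with
  | zero => rw [wj, Complex.cpow_nat_inv_pow _ (by omega)]
  | succ j ih =>
    rw [wj, mul_pow, ih, Complex.cpow_nat_inv_pow _ (by omega)]
    have := vj_ne_zero hb1 hb2 j
    field_simp

theorem wj_ne_zero (hn : 1 ≤ n) (hb1 : -1 ≤ b.re) (hb2 : b.re ≤ 0) (j : ℕ) : wj n b j ≠ 0 := by
  intro h
  have h1 := wj_pow hn hb1 hb2 j
  rw [h, zero_pow (by omega)] at h1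
  exact vj_ne_zero hb1 hb2 j h1.symm

theorem wj_shift (hn : 1 ≤ n) (hb1 : -1 ≤ b.re) (hb2 : b.re ≤ 0) (j : ℕ) :
    wj n b (j + 24) = wj n b j * (wj n b 24 / wj n b 0) := by
  induction j with
  | zero =>
    have := wj_ne_zero hn hb1 hb2 0
    rw [zero_add]; field_simp
  | succ j ih =>
    have h1 : j + 1 + 24 = (j + 24) + 1 := by ring
    rw [h1, wj_succ (j + 24), ih, wj_succ j]
    have h2 : vj b (j + 24 + 1) = vj b (j + 1) := by
      rw [← h1, vj_period]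
    rw [h2, vj_period]; ring

theorem wj_mult (hn : 1 ≤ n) (hb1 : -1 ≤ b.re) (hb2 : b.re ≤ 0) (k : ℕ) :
    wj n b (24 * k) = wj n b 0 * (wj n b 24 / wj n b 0) ^ k := by
  induction k with
  | zero => simp
  | succ k ih =>
    rw [mul_add, mul_one, wj_shift hn hb1 hb2, ih, pow_succ]; ring

theorem wj_closed (hn : 1 ≤ n) (hb1 : -1 ≤ b.re) (hb2 : b.re ≤ 0) :
    wj n b (24 * n) = wj n b 0 := by
  rw [wj_mult hn hb1 hb2, div_pow, wj_pow hn hb1 hb2, wj_pow hn hb1 hb2]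
  have h1 : vj b 24 = vj b 0 := vj_period b 0
  rw [h1, div_self (vj_ne_zero hb1 hb2 0), mul_one]

theorem aj_closed (n : ℕ) : aj (24 * n) = aj 0 := by
  induction n with
  | zero => rfl
  | succ k ih => rw [mul_add, mul_one, aj_period, ih]

theorem mem_leaf (hn : 1 ≤ n) (hb : ‖b‖ = 1) (hb1 : -1 ≤ b.re) (hb2 : b.re ≤ 0) (j : ℕ) :
    (b, wj n b j) ∈ Xset n := by
  refine ⟨hb, ?_⟩
  simp only
  rw [wj_pow hn hb1 hb2, vj]
  have : (((b.re : ℝ) : ℂ) + 2 / 5 - (((b.re : ℝ) : ℂ) + 2 / 5 - conj (aj j))) = conj (aj j) := by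
    ring
  rw [this, RCLike.norm_conj, norm_aj]

/-- The points on the leaf. -/
noncomputable def xj (hn : 1 ≤ n) (hb : ‖b‖ = 1) (hb1 : -1 ≤ b.re) (hb2 : b.re ≤ 0) (j : ℕ) :
    XC n := ⟨(b, wj n b j), mem_leaf hn hb hb1 hb2 j⟩

theorem af_xj (hn : 1 ≤ n) (hb : ‖b‖ = 1) (hb1 : -1 ≤ b.re) (hb2 : b.re ≤ 0) (j : ℕ) :
    af (xj hn hb hb1 hb2 j) = aj j := by
  rw [af]
  change conj (((b.re : ℝ) : ℂ) + 2 / 5 - wj n b j ^ n) = aj j
  rw [wj_pow hn hb1 hb2, vj]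
  have : (((b.re : ℝ) : ℂ) + 2 / 5 - (((b.re : ℝ) : ℂ) + 2 / 5 - conj (aj j))) = conj (aj j) := by
    ring
  rw [this, Complex.conj_conj]

theorem wf_xj_ne (hn : 1 ≤ n) (hb : ‖b‖ = 1) (hb1 : -1 ≤ b.re) (hb2 : b.re ≤ 0) (j : ℕ) :
    wf (xj hn hb hb1 hb2 j) ≠ 0 := wj_ne_zero hn hb1 hb2 j

theorem regChart_congr (hn : 1 ≤ n) {P Q : XC n} (hP : wf P ≠ 0) (hQ : wf Q ≠ 0) (h : P = Q) :
    regChart hn P hP = regChart hn Q hQ := by
  subst h; rfl

theorem xj_closed (hn : 1 ≤ n) (hb : ‖b‖ = 1) (hb1 : -1 ≤ b.re) (hb2 : b.re ≤ 0) :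
    xj hn hb hb1 hb2 (24 * n) = xj hn hb hb1 hb2 0 := by
  apply ext_XC
  · rfl
  · exact wj_closed hn hb1 hb2

theorem xj_succ_mem (hn : 1 ≤ n) (hb : ‖b‖ = 1) (hb1 : -1 ≤ b.re) (hb2 : b.re ≤ 0) (j : ℕ) :
    xj hn hb hb1 hb2 (j + 1) ∈ (regChart hn (xj hn hb hb1 hb2 j)
      (wf_xj_ne hn hb hb1 hb2 j)).source := by
  rw [mem_regChart_source, af_xj, af_xj, aj_succ, mul_div_cancel_left₀ _ (aj_ne_zero j)]
  refine ⟨exp_mem_slitPlane (by rw [abs_of_pos hstep_pos]; exact hstep_lt_pi), ?_⟩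
  have h1 : wf (xj hn hb hb1 hb2 (j + 1)) / wf (xj hn hb hb1 hb2 j) =
      (vj b (j + 1) / vj b j) ^ ((n : ℂ)⁻¹) := by
    change wj n b (j + 1) / wj n b j = _
    rw [wj, mul_div_cancel_left₀ _ (wj_ne_zero hn hb1 hb2 j)]
  rw [h1]
  exact root_mem_Sec hn (ratio_mem' hb1 hb2 j)

theorem arg_step (j : ℕ) : arg (aj (j + 1) / aj j) = hstep := by
  rw [aj_succ, mul_div_cancel_left₀ _ (aj_ne_zero j)]
  exact arg_exp_of (by rw [abs_of_pos hstep_pos]; exact hstep_lt_pi)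

theorem regChart_xj_self (hn : 1 ≤ n) (hb : ‖b‖ = 1) (hb1 : -1 ≤ b.re) (hb2 : b.re ≤ 0) (j : ℕ) :
    regChart hn (xj hn hb hb1 hb2 j) (wf_xj_ne hn hb hb1 hb2 j) (xj hn hb hb1 hb2 j) = b := by
  rw [regChart_coe, zc, div_self (af_ne_zero _), Complex.arg_one, mul_zero, Real.exp_zero,
    Complex.ofReal_one, one_mul]
  rfl

theorem regChart_xj_succ (hn : 1 ≤ n) (hb : ‖b‖ = 1) (hb1 : -1 ≤ b.re) (hb2 : b.re ≤ 0) (j : ℕ) :
    regChart hn (xj hn hb hb1 hb2 j) (wf_xj_ne hn hb hb1 hb2 j) (xj hn hb hb1 hb2 (j + 1)) =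
      (Real.exp (5 / 4 * hstep) : ℂ) * b := by
  rw [regChart_coe, zc, af_xj, af_xj, arg_step]
  rfl

theorem exp_gt_one : 1 < Real.exp (5 / 4 * hstep) := by
  rw [Real.one_lt_exp_iff]
  have := hstep_pos
  positivity

theorem seg_mem (hn : 1 ≤ n) (hb : ‖b‖ = 1) (hb1 : -1 ≤ b.re) (hb2 : b.re ≤ 0) (j : ℕ) {t : ℝ}
    (ht : t ∈ Icc (0 : ℝ) (Real.exp (5 / 4 * hstep) - 1)) :
    b + t * b ∈ (regChart hn (xj hn hb hb1 hb2 j) (wf_xj_ne hn hb hb1 hb2 j)).target := by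
  have hb0 : b ≠ 0 := by rw [← norm_pos_iff, hb]; exact one_pos
  have hs1 : 1 ≤ 1 + t := by linarith [ht.1]
  have hs0 : 0 < 1 + t := by linarith
  have hs2 : 1 + t ≤ Real.exp (5 / 4 * hstep) := by linarith [ht.2]
  have hz : b + t * b = ((1 + t : ℝ) : ℂ) * b := by push_cast; ring
  have hnorm : ‖b + t * b‖ = 1 + t := by
    rw [hz, norm_mul, hb, mul_one, Complex.norm_real, Real.norm_of_nonneg hs0.le]
  have hδ0 : 0 ≤ 4 / 5 * Real.log (1 + t) := by
    have := Real.log_nonneg hs1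
    positivity
  have hδ1 : 4 / 5 * Real.log (1 + t) ≤ hstep := by
    have : Real.log (1 + t) ≤ 5 / 4 * hstep := by
      rw [← Real.log_exp (5 / 4 * hstep)]
      exact Real.log_le_log hs0 hs2
    linarith
  rw [mem_regChart_target, hnorm, abs_of_nonneg hδ0]
  refine ⟨⟨?_, hδ1.trans_lt hstep_lt_pi⟩, ?_⟩
  · rw [hz]
    apply mul_ne_zero _ hb0
    exact_mod_cast hs0.ne'
  · have hbz : bz (b + t * b) = b := by
      rw [bz, hnorm, hz]
      have : ((1 + t : ℝ) : ℂ) ≠ 0 := by exact_mod_cast hs0.ne'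
      field_simp
    have hw : wf (xj hn hb hb1 hb2 j) ^ n = vj b j := wj_pow hn hb1 hb2 j
    rw [vz, hbz, az, af_xj, hnorm, hw]
    exact ratio_mem hb1 hb2 j (by rw [abs_of_nonneg hδ0]; exact hδ1)

end

/-- The closed chain in direction `b`, if `Re b ≤ 0`. -/
theorem exists_chain (hn : 2 ≤ n) {b : ℂ} (hb : ‖b‖ = 1) (hb2 : b.re ≤ 0) :
    Nonempty (Chain (surf n hn) b) := by
  have hn1 : 1 ≤ n := le_trans (by norm_num) hn
  have hb1 : -1 ≤ b.re := by
    have := Complex.abs_re_le_norm b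
    rw [hb] at this
    exact (abs_le.1 this).1
  set x : ℕ → XC n := xj hn1 hb hb1 hb2 with hx
  have hxw : ∀ j, wf (x j) ≠ 0 := wf_xj_ne hn1 hb hb1 hb2
  exact ⟨{
    N := 24 * n
    e := fun j => regChart hn1 (x j) (hxw j)
    x := x
    r := fun _ => Real.exp (5 / 4 * hstep) - 1
    a := fun _ => Real.exp (-(5 / 4 * hstep))
    c := fun _ => 0
    N_pos := by omega
    e_N := regChart_congr hn1 _ _ (xj_closed hn1 hb hb1 hb2)
    x_N := xj_closed hn1 hb hb1 hb2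
    mem_atlas := fun j _ => regChart_mem hn1 (x j) (hxw j)
    r_pos := fun _ _ => by linarith [exp_gt_one]
    mem_left := fun j _ => self_mem_regChart_source hn1 (x j) (hxw j)
    mem_right := fun j _ => xj_succ_mem hn1 hb hb1 hb2 j
    step := by
      intro j _
      refine (regChart_xj_succ hn1 hb hb1 hb2 j).trans ?_
      refine Eq.trans ?_ (congrArg (fun z : ℂ => z + ((Real.exp (5 / 4 * hstep) - 1 : ℝ) : ℂ) * b)
        (regChart_xj_self hn1 hb hb1 hb2 j)).symm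
      push_cast; ring
    seg := by
      intro j _ t ht
      have h1 := seg_mem hn1 hb hb1 hb2 j ht
      have h2 := regChart_xj_self hn1 hb hb1 hb2 j
      change regChart hn1 (xj hn1 hb hb1 hb2 j) _ (xj hn1 hb hb1 hb2 j) + t * b ∈ _
      rw [h2]; exact h1
    a_pos := fun _ _ => Real.exp_pos _
    trans := by
      intro j _
      have h1 : af (x (j + 1)) / af (x j) ∈ slitPlane := (xj_succ_mem hn1 hb hb1 hb2 j).1
      have h2 := zc_trans (norm_af (x j)) h1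
      filter_upwards [h2] with y hy
      have h3 : af (x (j + 1)) / af (x j) = aj (j + 1) / aj j := by
        rw [hx, af_xj, af_xj]
      rw [h3, arg_step] at hy
      change zc (af (x (j + 1))) y = ((Real.exp (-(5 / 4 * hstep)) : ℝ) : ℂ) * zc (af (x j)) y + 0
      rw [hy, Real.exp_neg]
      have h4 : ((Real.exp (5 / 4 * hstep) : ℝ) : ℂ) ≠ 0 := by
        exact_mod_cast (Real.exp_pos _).ne'
      rw [Complex.ofReal_inv]
      field_simp
      ring
    hol := by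
      rw [Finset.prod_const, Finset.card_range]
      apply ne_of_lt
      apply pow_lt_one₀ (Real.exp_pos _).le _ (by omega)
      rw [Real.exp_lt_one_iff]
      have := hstep_pos
      linarith }⟩

theorem surf_allDirections (n : ℕ) (hn : 2 ≤ n) : AllDirections (surf n hn) := by
  intro u hu
  rcases le_total u.re 0 with h | h
  · exact Or.inl (exists_chain hn hu h)
  · exact Or.inr (exists_chain hn (by rw [norm_neg]; exact hu) (by rw [Complex.neg_re]; linarith))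

end Pool.Agent.Lib.MP_ed6522_an
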