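import Pool.Agent.Lib.MP_ed6522_an.Ex6

/-!
# The open set without exceptional directions
-/

set_option autoImplicit false

open Set Topology Filter

namespace Pool.Agent.Lib.MP_ed6522_an

/-- Having closed chains in all directions is invariant under affine isomorphisms. -/
theorem AllDirections.iso {X Y : AffSurf} {f : X.carrier ≃ₜ Y.carrier} (hf : IsAffineIso X Y f)
    (hX : AllDirections X) : AllDirections Y := by
  obtain ⟨ι, hι, e, K, ε, hε, hK, h⟩ := global_data X hX
  apply h Y
  refine ⟨f, fun i => f.symm.transOpenPartialHomeomorph (e i), fun i => ?_⟩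
  obtain ⟨he, hKc, hKs, -⟩ := hK i
  have hf' := isAffineIso_symm hf
  refine ⟨?_, ?_, ?_, ?_⟩
  · apply Y.maximal
    · intro y hy hys
      have hy' : f.symm y ∈ (e i).source := hy
      exact X.avoid _ he _ hy' ((hf'.1 y).2 hys)
    · intro e' he' y hy hy'
      have hy1 : f.symm y ∈ (e i).source := hy
      obtain ⟨a, ha, c, hc⟩ := hf.2 (e i) he e' he' (f.symm y) hy1 (by
        rwa [f.apply_symm_apply])
      refine ⟨a, ha, c, ?_⟩
      have ht : Tendsto f.symm (𝓝 y) (𝓝 (f.symm y)) := f.symm.continuous.tendsto y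
      filter_upwards [ht.eventually hc] with z hz
      rw [f.apply_symm_apply] at hz
      exact hz
  · rintro _ ⟨x, hx, rfl⟩
    change f.symm (f x) ∈ (e i).source
    rw [f.symm_apply_apply]
    exact hKs hx
  · rintro _ ⟨x, hx, rfl⟩
    exact (e i).map_source (hKs hx)
  · intro x hx
    change ‖e i (f.symm (f x)) - e i x‖ < ε
    rw [f.symm_apply_apply, sub_self, norm_zero]
    exact hε

/-- The open set of the moduli space of all surfaces with closed chains in all directions. -/
def goodSet (g : ℕ) : Set (Moduli g) :=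
  {m | ∃ X : SurfOfGenus g, Moduli.mk X = m ∧ AllDirections X.1}

theorem mem_goodSet {g : ℕ} {X : SurfOfGenus g} (h : Moduli.mk X ∈ goodSet g) :
    AllDirections X.1 := by
  obtain ⟨Y, hY, hYd⟩ := h
  obtain ⟨f, hf⟩ := Quotient.exact hY
  exact hYd.iso hf

theorem isOpen_goodSet (g : ℕ) : IsOpen (goodSet g) := by
  intro X hX
  obtain ⟨ι, hι, e, K, ε, hε, hK, h⟩ := global_data X.1 (mem_goodSet hX)
  exact ⟨ι, hι, e, K, ε, hε, hK, fun Y hY => ⟨Y, rfl, h Y.1 hY⟩⟩

theorem goodSet_nonempty {g : ℕ} (hg : 2 ≤ g) : (goodSet g).Nonempty :=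
  ⟨Moduli.mk ⟨surf g hg, surf_genus g hg⟩, _, rfl, surf_allDirections g hg⟩

theorem goodSet_spec {g : ℕ} {X : SurfOfGenus g} (h : Moduli.mk X ∈ goodSet g) :
    ¬ HasExceptionalDirection X.1 :=
  not_hasExceptionalDirection X.1 (mem_goodSet h)

end Pool.Agent.Lib.MP_ed6522_an
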