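import Pool.Agent.Lib.MP_ed6522_an.Contin

/-!
# The closing-up problem for chains in terms of finitely many complex parameters
-/

set_option autoImplicit false

open Set Topology Filter

namespace Pool.Agent.Lib.MP_ed6522_an

/-- The positions of a chain starting at `z`. -/
noncomputable def orb (α γ : ℕ → ℂ) (r : ℕ → ℝ) (u z : ℂ) : ℕ → ℂ
  | 0 => z
  | (j + 1) => α j * (orb α γ r u z j + r j * u) + γ j

theorem orb_affine (α γ : ℕ → ℂ) (r : ℕ → ℝ) (u z : ℂ) (n : ℕ) :
    orb α γ r u z n = (∏ j ∈ Finset.range n, α j) * z + orb α γ r u 0 n := by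
  induction n with
  | zero => simp [orb]
  | succ n ih =>
    rw [orb, ih, Finset.prod_range_succ, orb]; ring

/-- Parameters: for every `j < N` the values `((s, s*), (t, t*))`, and the direction. -/
abbrev Param (N : ℕ) : Type := (Fin N → (ℂ × ℂ) × (ℂ × ℂ)) × ℂ

/-- The linear part of the transition map determined by the parameters. -/
noncomputable def alphaF {N : ℕ} (P : Param N) (j : ℕ) : ℂ :=
  if h : j < N then
    ((P.1 ⟨j, h⟩).2.2 - (P.1 ⟨j, h⟩).2.1) / ((P.1 ⟨j, h⟩).1.2 - (P.1 ⟨j, h⟩).1.1)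
  else 1

/-- The translation part of the transition map determined by the parameters. -/
noncomputable def gammaF {N : ℕ} (P : Param N) (j : ℕ) : ℂ :=
  if h : j < N then (P.1 ⟨j, h⟩).2.1 - alphaF P j * (P.1 ⟨j, h⟩).1.1 else 0

/-- The starting point of the closed chain. -/
noncomputable def startF {N : ℕ} (r : ℕ → ℝ) (P : Param N) : ℂ :=
  orb (alphaF P) (gammaF P) r P.2 0 N / (1 - ∏ j ∈ Finset.range N, alphaF P j)

/-- The positions of the closed chain. -/
noncomputable def posF {N : ℕ} (r : ℕ → ℝ) (P : Param N) (j : ℕ) : ℂ :=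
  orb (alphaF P) (gammaF P) r P.2 (startF r P) j

theorem posF_zero {N : ℕ} (r : ℕ → ℝ) (P : Param N) : posF r P 0 = startF r P := rfl

theorem posF_succ {N : ℕ} (r : ℕ → ℝ) (P : Param N) (j : ℕ) :
    posF r P (j + 1) = alphaF P j * (posF r P j + r j * P.2) + gammaF P j := rfl

theorem posF_N {N : ℕ} (r : ℕ → ℝ) (P : Param N) (h : ∏ j ∈ Finset.range N, alphaF P j ≠ 1) :
    posF r P N = posF r P 0 := by
  rw [posF_zero, posF, orb_affine]
  have h' : 1 - ∏ j ∈ Finset.range N, alphaF P j ≠ 0 := sub_ne_zero.2 h.symm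
  rw [startF]
  field_simp
  ring

/-- Uniqueness of the closed chain. -/
theorem posF_unique {N : ℕ} (r : ℕ → ℝ) (P : Param N)
    (h : ∏ j ∈ Finset.range N, alphaF P j ≠ 1) (p : ℕ → ℂ) (hN : p N = p 0)
    (hp : ∀ j < N, p (j + 1) = alphaF P j * (p j + r j * P.2) + gammaF P j) :
    ∀ j ≤ N, posF r P j = p j := by
  have h1 : ∀ j ≤ N, orb (alphaF P) (gammaF P) r P.2 (p 0) j = p j := by
    intro j
    induction j with
    | zero => intro _; rfl
    | succ j ih =>
      intro hj
      rw [orb, ih (by omega), hp j (by omega)]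
  have h2 := h1 N le_rfl
  rw [hN, orb_affine] at h2
  have h' : 1 - ∏ j ∈ Finset.range N, alphaF P j ≠ 0 := sub_ne_zero.2 h.symm
  have h3 : startF r P = p 0 := by
    rw [startF, div_eq_iff h']
    linear_combination h2
  intro j hj
  rw [posF, h3, h1 j hj]

variable {N : ℕ} {P₀ : Param N}

theorem continuousAt_alphaF (h : ∀ i : Fin N, (P₀.1 i).1.2 - (P₀.1 i).1.1 ≠ 0) (j : ℕ) :
    ContinuousAt (fun P : Param N => alphaF P j) P₀ := by
  by_cases hj : j < N
  · have : (fun P : Param N => alphaF P j) = fun P : Param N =>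
        ((P.1 ⟨j, hj⟩).2.2 - (P.1 ⟨j, hj⟩).2.1) / ((P.1 ⟨j, hj⟩).1.2 - (P.1 ⟨j, hj⟩).1.1) := by
      funext P; rw [alphaF, dif_pos hj]
    rw [this]
    apply ContinuousAt.div
    · fun_prop
    · fun_prop
    · exact h ⟨j, hj⟩
  · have : (fun P : Param N => alphaF P j) = fun _ => 1 := by
      funext P; rw [alphaF, dif_neg hj]
    rw [this]
    exact continuousAt_const

theorem continuousAt_gammaF (h : ∀ i : Fin N, (P₀.1 i).1.2 - (P₀.1 i).1.1 ≠ 0) (j : ℕ) :
    ContinuousAt (fun P : Param N => gammaF P j) P₀ := by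
  by_cases hj : j < N
  · have : (fun P : Param N => gammaF P j) = fun P : Param N =>
        (P.1 ⟨j, hj⟩).2.1 - alphaF P j * (P.1 ⟨j, hj⟩).1.1 := by
      funext P; rw [gammaF, dif_pos hj]
    rw [this]
    have := continuousAt_alphaF h j
    apply ContinuousAt.sub
    · fun_prop
    · apply this.mul
      fun_prop
  · have : (fun P : Param N => gammaF P j) = fun _ => 0 := by
      funext P; rw [gammaF, dif_neg hj]
    rw [this]
    exact continuousAt_const

theorem continuousAt_prodF (h : ∀ i : Fin N, (P₀.1 i).1.2 - (P₀.1 i).1.1 ≠ 0) (n : ℕ) :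
    ContinuousAt (fun P : Param N => ∏ j ∈ Finset.range n, alphaF P j) P₀ := by
  apply tendsto_finset_prod
  intro j _
  exact continuousAt_alphaF h j

theorem continuousAt_orb (h : ∀ i : Fin N, (P₀.1 i).1.2 - (P₀.1 i).1.1 ≠ 0) (r : ℕ → ℝ)
    {z : Param N → ℂ} (hz : ContinuousAt z P₀) (n : ℕ) :
    ContinuousAt (fun P : Param N => orb (alphaF P) (gammaF P) r P.2 (z P) n) P₀ := by
  induction n with
  | zero => exact hz
  | succ n ih =>
    simp only [orb]
    apply ContinuousAt.add
    · apply (continuousAt_alphaF h n).mul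
      apply ih.add
      fun_prop
    · exact continuousAt_gammaF h n

theorem continuousAt_posF (h : ∀ i : Fin N, (P₀.1 i).1.2 - (P₀.1 i).1.1 ≠ 0) (r : ℕ → ℝ)
    (h1 : ∏ j ∈ Finset.range N, alphaF P₀ j ≠ 1) (n : ℕ) :
    ContinuousAt (fun P : Param N => posF r P n) P₀ := by
  apply continuousAt_orb h r
  apply ContinuousAt.div
  · exact continuousAt_orb h r continuousAt_const N
  · exact continuousAt_const.sub (continuousAt_prodF h N)
  · exact sub_ne_zero.2 h1.symm

end Pool.Agent.Lib.MP_ed6522_an
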