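import Pool.Agent.Lib.MP_ed6522_an.Orb

/-!
# Persistence of closed chains under small perturbations
-/

set_option autoImplicit false

open Set Topology Filter

namespace Pool.Agent.Lib.MP_ed6522_an

theorem exists_common {N : ℕ} {P : ℕ → ℝ → Prop}
    (h : ∀ j < N, ∃ δ : ℝ, 0 < δ ∧ ∀ δ' : ℝ, 0 < δ' → δ' ≤ δ → P j δ') :
    ∃ δ : ℝ, 0 < δ ∧ ∀ δ' : ℝ, 0 < δ' → δ' ≤ δ → ∀ j < N, P j δ' := by
  induction N with
  | zero => exact ⟨1, one_pos, fun _ _ _ j hj => absurd hj (Nat.not_lt_zero j)⟩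
  | succ n ih =>
    obtain ⟨δ₁, h1, h1'⟩ := ih (fun j hj => h j (by omega))
    obtain ⟨δ₂, h2, h2'⟩ := h n (by omega)
    refine ⟨min δ₁ δ₂, lt_min h1 h2, fun δ' hδ' hle j hj => ?_⟩
    rcases Nat.lt_succ_iff_lt_or_eq.1 hj with h3 | h3
    · exact h1' δ' hδ' (hle.trans (min_le_left _ _)) j h3
    · subst h3
      exact h2' δ' hδ' (hle.trans (min_le_right _ _))

namespace Chain

variable {X : AffSurf} {u₀ : ℂ} (C : Chain X u₀)

/-- Position of the `j`-th point in the `j`-th chart. -/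
noncomputable def p (j : ℕ) : ℂ := C.e j (C.x j)

/-- Position of the `j+1`-st point in the `j`-th chart. -/
noncomputable def q (j : ℕ) : ℂ := C.p j + C.r j * u₀

/-- The `j`-th segment in the `j`-th chart. -/
noncomputable def seg' (j : ℕ) : Set ℂ := (fun t : ℝ => C.p j + t * u₀) '' Icc (0 : ℝ) (C.r j)

theorem q_eq (j : ℕ) (hj : j < C.N) : C.e j (C.x (j + 1)) = C.q j := C.step j hj

theorem seg'_compact (j : ℕ) : IsCompact (C.seg' j) := by
  apply isCompact_Icc.image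
  fun_prop

theorem seg'_target (j : ℕ) (hj : j < C.N) : C.seg' j ⊆ (C.e j).target := by
  rintro w ⟨t, ht, rfl⟩
  exact C.seg j hj t ht

theorem p_succ (j : ℕ) (hj : j < C.N) : C.p (j + 1) = C.a j * C.q j + C.c j := by
  have := (C.trans j hj).self_of_nhds
  rw [p, this, C.q_eq j hj]

theorem p_N : C.p C.N = C.p 0 := by rw [p, C.e_N, C.x_N, p]

theorem mod_e (j : ℕ) (hj : j ≤ C.N) : C.e (j % C.N) = C.e j := by
  rcases hj.lt_or_eq with h | h
  · rw [Nat.mod_eq_of_lt h]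
  · rw [h, Nat.mod_self, C.e_N]

theorem mod_p (j : ℕ) (hj : j ≤ C.N) : C.p (j % C.N) = C.p j := by
  rcases hj.lt_or_eq with h | h
  · rw [Nat.mod_eq_of_lt h]
  · rw [h, Nat.mod_self, C.p_N]

theorem exists_rho : ∃ ρ : ℝ, 0 < ρ ∧
    ∀ j < C.N, Metric.cthickening ρ (C.seg' j) ⊆ (C.e j).target := by
  obtain ⟨ρ, hρ, h⟩ := exists_common (N := C.N)
    (P := fun j ρ => Metric.cthickening ρ (C.seg' j) ⊆ (C.e j).target) (by
      intro j hj
      obtain ⟨δ, hδ, h⟩ := (C.seg'_compact j).exists_cthickening_subset_open (C.e j).open_target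
        (C.seg'_target j hj)
      exact ⟨δ, hδ, fun δ' _ hle => (Metric.cthickening_mono hle _).trans h⟩)
  exact ⟨ρ, hρ, h ρ hρ le_rfl⟩

theorem exists_sigma {ρ : ℝ} (hρ : 0 < ρ) : ∃ σ : ℝ, 0 < σ ∧ σ ≤ ρ ∧
    ∀ j < C.N, ∀ w ∈ Metric.closedBall (C.q j) σ, (C.e j).symm w ∈ (C.e (j + 1)).source ∧
      C.e (j + 1) ((C.e j).symm w) = C.a j * w + C.c j ∧
      (C.a j : ℂ) * w + C.c j ∈ Metric.ball (C.p (j + 1)) ρ := by
  obtain ⟨σ, hσ, h⟩ := exists_common (N := C.N)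
    (P := fun j σ => ∀ w ∈ Metric.closedBall (C.q j) σ, (C.e j).symm w ∈ (C.e (j + 1)).source ∧
      C.e (j + 1) ((C.e j).symm w) = C.a j * w + C.c j ∧
      (C.a j : ℂ) * w + C.c j ∈ Metric.ball (C.p (j + 1)) ρ) (by
      intro j hj
      have hqt : C.q j ∈ (C.e j).target := by
        rw [← C.q_eq j hj]; exact (C.e j).map_source (C.mem_right j hj)
      have hsymm := (C.e j).continuousAt_symm hqt
      have hqx : (C.e j).symm (C.q j) = C.x (j + 1) := by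
        rw [← C.q_eq j hj, (C.e j).left_inv (C.mem_right j hj)]
      have hsymm' : Tendsto (C.e j).symm (𝓝 (C.q j)) (𝓝 (C.x (j + 1))) := by
        have := hsymm.tendsto
        rwa [hqx] at this
      have h1 : ∀ᶠ w in 𝓝 (C.q j), (C.e j).symm w ∈ (C.e (j + 1)).source :=
        hsymm'.eventually ((C.e (j + 1)).open_source.eventually_mem (C.mem_left' (j + 1) hj))
      have h2 := hsymm'.eventually (C.trans j hj)
      have h3 := (C.e j).open_target.eventually_mem hqt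
      have h4 : ∀ᶠ w in 𝓝 (C.q j), (C.a j : ℂ) * w + C.c j ∈ Metric.ball (C.p (j + 1)) ρ := by
        have hc : Continuous (fun w : ℂ => (C.a j : ℂ) * w + C.c j) := by fun_prop
        apply hc.continuousAt.eventually_mem
        rw [← C.p_succ j hj]
        exact Metric.ball_mem_nhds _ hρ
      have h5 := h1.and (h2.and (h3.and h4))
      obtain ⟨δ, hδ, h6⟩ := Metric.eventually_nhds_iff.1 h5
      refine ⟨δ / 2, by positivity, fun δ' hδ' hle w hw => ?_⟩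
      have hw' : dist w (C.q j) < δ := by
        rw [Metric.mem_closedBall] at hw
        linarith
      obtain ⟨g1, g2, g3, g4⟩ := h6 hw'
      refine ⟨g1, ?_, g4⟩
      rw [g2, (C.e j).right_inv g3])
  refine ⟨min σ ρ, lt_min hσ hρ, min_le_right _ _, ?_⟩
  exact h _ (lt_min hσ hρ) (min_le_left _ _)

/-- The reference parameters. -/
noncomputable def P₀ (σ : ℝ) : Param C.N :=
  (fun i => ((C.q i, C.q i + σ), (C.p (i + 1), C.p (i + 1) + C.a i * σ)), u₀)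

theorem alphaF_P₀ {σ : ℝ} (hσ : 0 < σ) (j : ℕ) (hj : j < C.N) :
    alphaF (C.P₀ σ) j = C.a j := by
  have : (σ : ℂ) ≠ 0 := by exact_mod_cast hσ.ne'
  rw [alphaF, dif_pos hj]
  simp only [P₀, add_sub_cancel_left]
  field_simp

theorem gammaF_P₀ {σ : ℝ} (hσ : 0 < σ) (j : ℕ) (hj : j < C.N) :
    gammaF (C.P₀ σ) j = C.c j := by
  rw [gammaF, dif_pos hj, C.alphaF_P₀ hσ j hj]
  simp only [P₀]
  rw [C.p_succ j hj]; ring

theorem prod_P₀ {σ : ℝ} (hσ : 0 < σ) :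
    ∏ j ∈ Finset.range C.N, alphaF (C.P₀ σ) j ≠ 1 := by
  rw [Finset.prod_congr rfl (fun j hj => C.alphaF_P₀ hσ j (Finset.mem_range.1 hj))]
  intro h
  apply C.hol
  exact_mod_cast h

theorem posF_P₀ {σ : ℝ} (hσ : 0 < σ) : ∀ j ≤ C.N, posF C.r (C.P₀ σ) j = C.p j := by
  apply posF_unique _ _ (C.prod_P₀ hσ) _ C.p_N
  intro j hj
  rw [C.alphaF_P₀ hσ j hj, C.gammaF_P₀ hσ j hj, C.p_succ j hj]
  rfl

theorem nonzero_P₀ {σ : ℝ} (hσ : 0 < σ) (i : Fin C.N) :
    ((C.P₀ σ).1 i).1.2 - ((C.P₀ σ).1 i).1.1 ≠ 0 := by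
  simp only [P₀, add_sub_cancel_left]
  exact_mod_cast hσ.ne'

/-- The open conditions on the parameters which guarantee the existence of a closed chain. -/
structure Good (ρ σ' : ℝ) (P : Param C.N) : Prop where
  hol : ∏ j ∈ Finset.range C.N, alphaF P j ≠ 1
  pos : ∀ j ≤ C.N, dist (posF C.r P j) (C.p j) < ρ / 2
  dir : ∀ j < C.N, C.r j * ‖P.2 - u₀‖ < ρ / 2
  map : ∀ j < C.N, ∀ w ∈ Metric.ball (C.q j) σ', alphaF P j * w + gammaF P j ∈
    Metric.ball (C.p (j + 1)) ρ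
  next : ∀ j < C.N, posF C.r P j + C.r j * P.2 ∈ Metric.ball (C.q j) σ'
  val : ∀ i : Fin C.N, (P.1 i).1.1 ∈ Metric.ball (C.q i) σ'
  ne : ∀ i : Fin C.N, (P.1 i).1.2 - (P.1 i).1.1 ≠ 0

theorem exists_good {ρ σ : ℝ} (hρ : 0 < ρ) (hσ : 0 < σ) : ∃ σ' : ℝ, 0 < σ' ∧ σ' ≤ σ ∧
    ∃ ε : ℝ, 0 < ε ∧ ∀ P : Param C.N, dist P (C.P₀ σ) < ε → C.Good ρ σ' P := by
  have hα := fun j => continuousAt_alphaF (C.nonzero_P₀ hσ) j
  have hγ := fun j => continuousAt_gammaF (C.nonzero_P₀ hσ) j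
  have hpos := fun j => continuousAt_posF (C.nonzero_P₀ hσ) C.r (C.prod_P₀ hσ) j
  -- choice of `σ'`
  obtain ⟨σ₁, hσ₁, hσ₁'⟩ := exists_common (N := C.N)
    (P := fun j σ' => ∀ᶠ P in 𝓝 (C.P₀ σ), ∀ w ∈ Metric.ball (C.q j) σ',
      alphaF P j * w + gammaF P j ∈ Metric.ball (C.p (j + 1)) ρ) (by
      intro j hj
      have h1 : ContinuousAt (fun Q : Param C.N × ℂ => alphaF Q.1 j * Q.2 + gammaF Q.1 j)
          (C.P₀ σ, C.q j) := by
        apply ContinuousAt.add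
        · apply ContinuousAt.mul
          · exact ContinuousAt.comp (x := (C.P₀ σ, C.q j)) (f := Prod.fst)
              (g := fun P : Param C.N => alphaF P j) (hα j) continuousAt_fst
          · exact continuousAt_snd
        · exact ContinuousAt.comp (x := (C.P₀ σ, C.q j)) (f := Prod.fst)
              (g := fun P : Param C.N => gammaF P j) (hγ j) continuousAt_fst
      have h2 : ∀ᶠ Q : Param C.N × ℂ in 𝓝 (C.P₀ σ, C.q j),
          alphaF Q.1 j * Q.2 + gammaF Q.1 j ∈ Metric.ball (C.p (j + 1)) ρ := by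
        apply h1.eventually_mem
        have : alphaF (C.P₀ σ) j * C.q j + gammaF (C.P₀ σ) j = C.p (j + 1) := by
          rw [C.alphaF_P₀ hσ j hj, C.gammaF_P₀ hσ j hj, C.p_succ j hj]
        simp only
        rw [this]
        exact Metric.ball_mem_nhds _ hρ
      rw [nhds_prod_eq] at h2
      obtain ⟨pa, hpa, pb, hpb, h3⟩ := Filter.eventually_prod_iff.1 h2
      obtain ⟨δ, hδ, h4⟩ := Metric.eventually_nhds_iff.1 hpb
      refine ⟨δ, hδ, fun δ' _ hle => ?_⟩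
      filter_upwards [hpa] with P hP w hw
      exact h3 hP (h4 (lt_of_lt_of_le hw hle)))
  set σ' := min σ₁ σ with hσ'
  have hσ'pos : 0 < σ' := lt_min hσ₁ hσ
  have hmap := hσ₁' σ' hσ'pos (min_le_left _ _)
  refine ⟨σ', hσ'pos, min_le_right _ _, ?_⟩
  have e1 : ∀ᶠ P in 𝓝 (C.P₀ σ), ∏ j ∈ Finset.range C.N, alphaF P j ≠ 1 :=
    (continuousAt_prodF (C.nonzero_P₀ hσ) C.N).eventually_ne (C.prod_P₀ hσ)
  have e2 : ∀ᶠ P in 𝓝 (C.P₀ σ), ∀ j ∈ Finset.range (C.N + 1),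
      dist (posF C.r P j) (C.p j) < ρ / 2 := by
    apply (Finset.eventually_all _).2
    intro j hj
    have hj' : j ≤ C.N := by rw [Finset.mem_range] at hj; omega
    have := (hpos j).tendsto
    rw [C.posF_P₀ hσ j hj'] at this
    exact this.eventually (Metric.ball_mem_nhds _ (half_pos hρ))
  have e3 : ∀ᶠ P in 𝓝 (C.P₀ σ), ∀ j ∈ Finset.range C.N, C.r j * ‖P.2 - u₀‖ < ρ / 2 := by
    apply (Finset.eventually_all _).2
    intro j hj
    have h1 : ContinuousAt (fun P : Param C.N => C.r j * ‖P.2 - u₀‖) (C.P₀ σ) := by fun_prop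
    have h2 := h1.tendsto
    have h3 : C.r j * ‖(C.P₀ σ).2 - u₀‖ = 0 := by simp [P₀]
    rw [h3] at h2
    exact h2.eventually (gt_mem_nhds (half_pos hρ))
  have e4 : ∀ᶠ P in 𝓝 (C.P₀ σ), ∀ j ∈ Finset.range C.N, ∀ w ∈ Metric.ball (C.q j) σ',
      alphaF P j * w + gammaF P j ∈ Metric.ball (C.p (j + 1)) ρ :=
    (Finset.eventually_all _).2 fun j hj => hmap j (Finset.mem_range.1 hj)
  have e5 : ∀ᶠ P in 𝓝 (C.P₀ σ), ∀ j ∈ Finset.range C.N,
      posF C.r P j + C.r j * P.2 ∈ Metric.ball (C.q j) σ' := by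
    apply (Finset.eventually_all _).2
    intro j hj
    have hj' := Finset.mem_range.1 hj
    have h1 : ContinuousAt (fun P : Param C.N => posF C.r P j + C.r j * P.2) (C.P₀ σ) := by
      apply (hpos j).add
      fun_prop
    apply h1.eventually_mem
    rw [C.posF_P₀ hσ j hj'.le]
    exact Metric.ball_mem_nhds _ hσ'pos
  have e6 : ∀ᶠ P in 𝓝 (C.P₀ σ), ∀ i : Fin C.N, (P.1 i).1.1 ∈ Metric.ball (C.q i) σ' := by
    apply Filter.eventually_all.2
    intro i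
    have h1 : ContinuousAt (fun P : Param C.N => (P.1 i).1.1) (C.P₀ σ) := by fun_prop
    apply h1.eventually_mem
    exact Metric.ball_mem_nhds _ hσ'pos
  have e7 : ∀ᶠ P in 𝓝 (C.P₀ σ), ∀ i : Fin C.N, (P.1 i).1.2 - (P.1 i).1.1 ≠ 0 := by
    apply Filter.eventually_all.2
    intro i
    have h1 : ContinuousAt (fun P : Param C.N => (P.1 i).1.2 - (P.1 i).1.1) (C.P₀ σ) := by
      fun_prop
    exact h1.eventually_ne (C.nonzero_P₀ hσ i)
  have e8 : ∀ᶠ P in 𝓝 (C.P₀ σ), C.Good ρ σ' P := by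
    filter_upwards [e1, e2, e3, e4, e5, e6, e7] with P g1 g2 g3 g4 g5 g6 g7
    exact ⟨g1, fun j hj => g2 j (Finset.mem_range.2 (by omega)),
      fun j hj => g3 j (Finset.mem_range.2 hj), fun j hj => g4 j (Finset.mem_range.2 hj),
      fun j hj => g5 j (Finset.mem_range.2 hj), g6, g7⟩
  obtain ⟨ε, hε, h⟩ := Metric.eventually_nhds_iff.1 e8
  exact ⟨ε, hε, fun P hP => h hP⟩

end Chain

end Pool.Agent.Lib.MP_ed6522_an
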