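import Pool.Agent.Lib.MP_ed6522_an.Persist

/-!
# Persistence of closed chains under small perturbations, II
-/

set_option autoImplicit false

open Set Topology Filter

namespace Pool.Agent.Lib.MP_ed6522_an

namespace Chain

variable {X : AffSurf} {u₀ : ℂ} (C : Chain X u₀)

/-- The compact sets on which closeness is required. -/
noncomputable def Kset (ρ : ℝ) (j : ℕ) : Set X.carrier :=
  (C.e j).symm '' Metric.cthickening ρ (C.seg' j)

theorem Kset_compact {ρ : ℝ} (h : ∀ j < C.N, Metric.cthickening ρ (C.seg' j) ⊆ (C.e j).target)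
    (j : ℕ) (hj : j < C.N) : IsCompact (C.Kset ρ j) := by
  apply IsCompact.image_of_continuousOn
  · exact (C.seg'_compact j).cthickening
  · exact (C.e j).continuousOn_symm.mono (h j hj)

theorem Kset_source {ρ : ℝ} (h : ∀ j < C.N, Metric.cthickening ρ (C.seg' j) ⊆ (C.e j).target)
    (j : ℕ) (hj : j < C.N) : C.Kset ρ j ⊆ (C.e j).source := by
  rintro y ⟨w, hw, rfl⟩
  exact (C.e j).map_target (h j hj hw)

theorem Kset_convex {ρ : ℝ} (h : ∀ j < C.N, Metric.cthickening ρ (C.seg' j) ⊆ (C.e j).target)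
    (j : ℕ) (hj : j < C.N) : Convex ℝ (C.e j '' C.Kset ρ j) := by
  have h1 : C.e j '' C.Kset ρ j = Metric.cthickening ρ (C.seg' j) := by
    ext w
    constructor
    · rintro ⟨_, ⟨v, hv, rfl⟩, rfl⟩
      rwa [(C.e j).right_inv (h j hj hv)]
    · intro hw
      exact ⟨_, ⟨w, hw, rfl⟩, (C.e j).right_inv (h j hj hw)⟩
  rw [h1]
  apply Convex.cthickening
  rintro _ ⟨t, ht, rfl⟩ _ ⟨t', ht', rfl⟩ a b ha hb hab
  refine ⟨a * t + b * t', convex_Icc _ _ ht ht' ha hb hab, ?_⟩
  have hab' : (a : ℂ) + b = 1 := by exact_mod_cast hab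
  simp only [Complex.real_smul]
  push_cast
  linear_combination (-C.p j) * hab'

/-- The persistence theorem for a given direction. -/
theorem persist : ∃ (K : Fin C.N → Set X.carrier) (ε : ℝ), 0 < ε ∧
    (∀ i : Fin C.N, IsCompact (K i) ∧ K i ⊆ (C.e i).source ∧ Convex ℝ (C.e i '' K i)) ∧
    ∀ Y : AffSurf, Near X Y (fun i : Fin C.N => C.e i) K ε → ∀ u : ℂ, ‖u - u₀‖ < ε →
      Nonempty (Chain Y u) := by
  obtain ⟨ρ, hρ, hρt⟩ := C.exists_rho
  obtain ⟨σ, hσ, hσρ, hσball⟩ := C.exists_sigma hρ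
  obtain ⟨σ', hσ', hσ'σ, ε, hε, hgood⟩ := C.exists_good hρ hσ
  have hNpos := C.N_pos
  refine ⟨fun i => C.Kset ρ i, ε, hε, fun i => ⟨C.Kset_compact hρt i i.2,
    C.Kset_source hρt i i.2, C.Kset_convex hρt i i.2⟩, ?_⟩
  rintro Y ⟨h, e', hY⟩ u hu
  -- basic sets
  set D : ℕ → Set ℂ := fun j => Metric.cthickening ρ (C.seg' (j % C.N)) with hD
  set e'' : ℕ → OpenPartialHomeomorph Y.carrier ℂ := fun j =>
    e' ⟨j % C.N, Nat.mod_lt _ hNpos⟩ with he''
  have memD_p : ∀ j ≤ C.N, ∀ w ∈ Metric.ball (C.p j) ρ, w ∈ D j := by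
    intro j hj w hw
    apply Metric.mem_cthickening_of_dist_le w (C.p j)
    · refine ⟨0, ⟨le_rfl, (C.r_pos _ (Nat.mod_lt _ hNpos)).le⟩, ?_⟩
      simp [C.mod_p j hj]
    · exact (Metric.mem_ball.1 hw).le
  have memD_seg : ∀ j < C.N, ∀ t ∈ Icc (0 : ℝ) (C.r j), ∀ w : ℂ,
      dist w (C.p j + t * u₀) ≤ ρ → w ∈ D j := by
    intro j hj t ht w hw
    apply Metric.mem_cthickening_of_dist_le w (C.p j + t * u₀)
    · rw [Nat.mod_eq_of_lt hj]
      exact ⟨t, ht, rfl⟩
    · exact hw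
  have memD_q : ∀ j < C.N, ∀ w ∈ Metric.closedBall (C.q j) ρ, w ∈ D j := by
    intro j hj w hw
    exact memD_seg j hj (C.r j) ⟨(C.r_pos j hj).le, le_rfl⟩ w (Metric.mem_closedBall.1 hw)
  have F1 : ∀ j, e'' j ∈ Y.atlas := fun j => (hY ⟨j % C.N, Nat.mod_lt _ hNpos⟩).1
  have F2 : ∀ j ≤ C.N, ∀ z ∈ (C.e j).source, C.e j z ∈ D j →
      h z ∈ (e'' j).source ∧ ‖e'' j (h z) - C.e j z‖ < ε := by
    intro j hj z hz hzD
    have hz' : z ∈ C.Kset ρ (j % C.N) := by
      refine ⟨C.e j z, hzD, ?_⟩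
      rw [C.mod_e j hj, (C.e j).left_inv hz]
    obtain ⟨-, hs, -, hd⟩ := hY ⟨j % C.N, Nat.mod_lt _ hNpos⟩
    refine ⟨hs ⟨z, hz', rfl⟩, ?_⟩
    have := hd z hz'
    simp only [C.mod_e j hj] at this
    exact this
  have F3 : ∀ j ≤ C.N, D j ⊆ (e'' j).target := by
    intro j hj w hw
    obtain ⟨-, -, ht, -⟩ := hY ⟨j % C.N, Nat.mod_lt _ hNpos⟩
    apply ht
    refine ⟨(C.e (j % C.N)).symm w, ⟨w, hw, rfl⟩, ?_⟩
    exact (C.e (j % C.N)).right_inv (hρt _ (Nat.mod_lt _ hNpos) hw)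
  have hDt : ∀ j < C.N, D j ⊆ (C.e j).target := by
    intro j hj
    have := hρt j hj
    simp only [hD, Nat.mod_eq_of_lt hj]
    exact this
  -- second base point
  set xs : ℕ → X.carrier := fun j => (C.e j).symm (C.q j + σ) with hxs
  have hqσ : ∀ j, C.q j + σ ∈ Metric.closedBall (C.q j) σ := by
    intro j
    rw [Metric.mem_closedBall, dist_eq_norm, add_sub_cancel_left, Complex.norm_real,
      Real.norm_of_nonneg hσ.le]
  have hqball : ∀ j, C.q j ∈ Metric.closedBall (C.q j) σ := fun j =>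
    Metric.mem_closedBall_self hσ.le
  have hball_D : ∀ j < C.N, Metric.closedBall (C.q j) σ ⊆ D j := fun j hj w hw =>
    memD_q j hj w (Metric.closedBall_subset_closedBall hσρ hw)
  have hxs_src : ∀ j < C.N, xs j ∈ (C.e j).source := fun j hj =>
    (C.e j).map_target (hDt j hj (hball_D j hj (hqσ j)))
  have hxs_val : ∀ j < C.N, C.e j (xs j) = C.q j + σ := fun j hj =>
    (C.e j).right_inv (hDt j hj (hball_D j hj (hqσ j)))
  -- the four values
  have V1 : ∀ j < C.N, h (C.x (j + 1)) ∈ (e'' j).source ∧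
      ‖e'' j (h (C.x (j + 1))) - C.q j‖ < ε := by
    intro j hj
    have := F2 j hj.le (C.x (j + 1)) (C.mem_right j hj)
      (by rw [C.q_eq j hj]; exact hball_D j hj (hqball j))
    rwa [C.q_eq j hj] at this
  have V2 : ∀ j < C.N, h (xs j) ∈ (e'' j).source ∧
      ‖e'' j (h (xs j)) - (C.q j + σ)‖ < ε := by
    intro j hj
    have := F2 j hj.le (xs j) (hxs_src j hj)
      (by rw [hxs_val j hj]; exact hball_D j hj (hqσ j))
    rwa [hxs_val j hj] at this
  have V3 : ∀ j < C.N, h (C.x (j + 1)) ∈ (e'' (j + 1)).source ∧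
      ‖e'' (j + 1) (h (C.x (j + 1))) - C.p (j + 1)‖ < ε := by
    intro j hj
    exact F2 (j + 1) hj (C.x (j + 1)) (C.mem_left' (j + 1) hj)
      (memD_p (j + 1) hj _ (Metric.mem_ball_self hρ))
  have V4 : ∀ j < C.N, h (xs j) ∈ (e'' (j + 1)).source ∧
      ‖e'' (j + 1) (h (xs j)) - (C.p (j + 1) + C.a j * σ)‖ < ε := by
    intro j hj
    obtain ⟨g1, g2, g3⟩ := hσball j hj _ (hqσ j)
    have g4 : C.e (j + 1) (xs j) = C.p (j + 1) + C.a j * σ := by
      rw [hxs]; simp only; rw [g2, C.p_succ j hj]; ring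
    have := F2 (j + 1) hj (xs j) g1 (memD_p (j + 1) hj _ (by rw [hxs]; simp only; rw [g2]; exact g3))
    rwa [g4] at this
  -- parameters of `Y`
  set P : Param C.N := (fun i => ((e'' i (h (C.x (i + 1))), e'' i (h (xs i))),
    (e'' (i + 1) (h (C.x (i + 1))), e'' (i + 1) (h (xs i)))), u) with hP
  have hPdist : dist P (C.P₀ σ) < ε := by
    rw [Prod.dist_eq, max_lt_iff]
    constructor
    · rw [dist_pi_lt_iff hε]
      intro i
      rw [Prod.dist_eq, max_lt_iff, Prod.dist_eq, max_lt_iff, Prod.dist_eq, max_lt_iff]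
      simp only [dist_eq_norm]
      exact ⟨⟨(V1 i i.2).2, (V2 i i.2).2⟩, (V3 i i.2).2, (V4 i i.2).2⟩
    · rw [dist_eq_norm]; exact hu
  have G := hgood P hPdist
  -- transition maps of `Y`
  have T : ∀ j < C.N, 0 < (alphaF P j).re ∧ alphaF P j = ((alphaF P j).re : ℂ) ∧
      ∀ᶠ z in 𝓝 (h (C.x (j + 1))), e'' (j + 1) z = ((alphaF P j).re : ℂ) * e'' j z + gammaF P j := by
    intro j hj
    set S : Set Y.carrier := h '' ((C.e j).symm '' Metric.closedBall (C.q j) σ) with hS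
    have hSpre : IsPreconnected S := by
      apply IsPreconnected.image _ _ h.continuous.continuousOn
      apply IsPreconnected.image
      · exact (convex_closedBall _ _).isPreconnected
      · exact (C.e j).continuousOn_symm.mono ((hball_D j hj).trans (hDt j hj))
    have hS1 : S ⊆ (e'' j).source := by
      rintro _ ⟨_, ⟨w, hw, rfl⟩, rfl⟩
      have hwt := hDt j hj (hball_D j hj hw)
      exact (F2 j hj.le _ ((C.e j).map_target hwt) (by
        rw [(C.e j).right_inv hwt]; exact hball_D j hj hw)).1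
    have hS2 : S ⊆ (e'' (j + 1)).source := by
      rintro _ ⟨_, ⟨w, hw, rfl⟩, rfl⟩
      obtain ⟨g1, g2, g3⟩ := hσball j hj w hw
      exact (F2 (j + 1) hj _ g1 (by rw [g2]; exact memD_p (j + 1) hj _ g3)).1
    have hx1 : h (C.x (j + 1)) ∈ S := by
      refine ⟨C.x (j + 1), ⟨C.q j, hqball j, ?_⟩, rfl⟩
      rw [← C.q_eq j hj, (C.e j).left_inv (C.mem_right j hj)]
    have hx2 : h (xs j) ∈ S := ⟨xs j, ⟨C.q j + σ, hqσ j, rfl⟩, rfl⟩
    obtain ⟨a, ha, c, hc⟩ := trans_const Y (F1 j) (F1 (j + 1)) hSpre hS1 hS2 hx1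
    have c1 := (hc _ hx1).self_of_nhds
    have c2 := (hc _ hx2).self_of_nhds
    have hne := G.ne ⟨j, hj⟩
    simp only [hP] at hne
    have hα : alphaF P j = a := by
      rw [alphaF, dif_pos hj]
      simp only [hP]
      rw [div_eq_iff hne, c1, c2]
      ring
    have hγ : gammaF P j = c := by
      rw [gammaF, dif_pos hj, hα]
      simp only [hP]
      rw [c1]; ring
    rw [hα, hγ]
    simp only [Complex.ofReal_re]
    exact ⟨ha, trivial, hc _ hx1⟩
  -- positions
  have pos_D : ∀ j ≤ C.N, posF C.r P j ∈ D j := by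
    intro j hj
    apply memD_p j hj
    have := G.pos j hj
    rw [Metric.mem_ball]; linarith
  have posN : posF C.r P C.N = posF C.r P 0 := posF_N _ _ G.hol
  have hu2 : P.2 = u := rfl
  set x' : ℕ → Y.carrier := fun j => (e'' j).symm (posF C.r P j) with hx'
  have x'val : ∀ j ≤ C.N, e'' j (x' j) = posF C.r P j := fun j hj =>
    (e'' j).right_inv (F3 j hj (pos_D j hj))
  have x'src : ∀ j ≤ C.N, x' j ∈ (e'' j).source := fun j hj =>
    (e'' j).map_target (F3 j hj (pos_D j hj))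
  -- junctions
  have J : ∀ j < C.N, x' (j + 1) ∈ (e'' j).source ∧
      e'' j (x' (j + 1)) = posF C.r P j + C.r j * u ∧
      ∀ᶠ z in 𝓝 (x' (j + 1)), e'' (j + 1) z = ((alphaF P j).re : ℂ) * e'' j z + gammaF P j := by
    intro j hj
    obtain ⟨T1, T2, T3⟩ := T j hj
    have hballsub : Metric.ball (C.q j) σ' ⊆ D j := fun w hw =>
      hball_D j hj (Metric.ball_subset_closedBall (Metric.ball_subset_ball hσ'σ hw))
    have hval := G.val ⟨j, hj⟩
    simp only [hP] at hval
    have hsymm : (e'' j).symm (e'' j (h (C.x (j + 1)))) = h (C.x (j + 1)) :=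
      (e'' j).left_inv (V1 j hj).1
    have hcont := continuation Y (F1 j) (F1 (j + 1)) (convex_ball (C.q j) σ').isPreconnected
      (a := (alphaF P j).re) (c := gammaF P j) (hballsub.trans (F3 j hj.le))
      (by
        intro w hw
        apply F3 (j + 1) hj
        apply memD_p (j + 1) hj
        have := G.map j hj w hw
        rwa [T2] at this)
      hval (by rw [hsymm]; exact (V3 j hj).1) (by rw [hsymm]; exact T3)
    have hnext := G.next j hj
    rw [hu2] at hnext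
    obtain ⟨c1, c2⟩ := hcont _ hnext
    have hw1t : posF C.r P j + C.r j * u ∈ (e'' j).target := F3 j hj.le (hballsub hnext)
    have c3 := c2.self_of_nhds
    rw [(e'' j).right_inv hw1t, ← T2] at c3
    have c4 : e'' (j + 1) ((e'' j).symm (posF C.r P j + C.r j * u)) = posF C.r P (j + 1) := by
      rw [c3, posF_succ, hu2]
    have c5 : x' (j + 1) = (e'' j).symm (posF C.r P j + C.r j * u) := by
      simp only [hx']
      rw [← c4, (e'' (j + 1)).left_inv c1]
    rw [c5]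
    exact ⟨(e'' j).map_target hw1t, (e'' j).right_inv hw1t, c2⟩
  refine ⟨{
    N := C.N
    e := e''
    x := x'
    r := C.r
    a := fun j => (alphaF P j).re
    c := fun j => gammaF P j
    N_pos := hNpos
    e_N := ?_
    x_N := ?_
    mem_atlas := fun j _ => F1 j
    r_pos := C.r_pos
    mem_left := fun j hj => x'src j hj.le
    mem_right := fun j hj => (J j hj).1
    step := fun j hj => by rw [(J j hj).2.1, x'val j hj.le]
    seg := ?_
    a_pos := fun j hj => (T j hj).1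
    trans := fun j hj => (J j hj).2.2
    hol := ?_ }⟩
  · simp only [he'', Nat.mod_self, Nat.zero_mod]
  · simp only [hx', he'', Nat.mod_self, Nat.zero_mod]
    rw [posN]
  · intro j hj t ht
    rw [x'val j hj.le]
    apply F3 j hj.le
    apply memD_seg j hj t ht
    have h1 := G.pos j hj.le
    have h2 := G.dir j hj
    rw [hu2] at h2
    rw [dist_eq_norm] at h1 ⊢
    have h3 : posF C.r P j + t * u - (C.p j + t * u₀) = (posF C.r P j - C.p j) + t * (u - u₀) := by
      ring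
    rw [h3]
    have h4 : ‖(t : ℂ) * (u - u₀)‖ ≤ C.r j * ‖u - u₀‖ := by
      rw [norm_mul, Complex.norm_real, Real.norm_of_nonneg ht.1]
      exact mul_le_mul_of_nonneg_right ht.2 (norm_nonneg _)
    have h5 := norm_add_le (posF C.r P j - C.p j) ((t : ℂ) * (u - u₀))
    linarith
  · intro hprod
    apply G.hol
    rw [Finset.prod_congr rfl (fun j hj => (T j (Finset.mem_range.1 hj)).2.1)]
    exact_mod_cast hprod

end Chain

/-- A surface has closed chains in every direction (up to sign). -/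
def AllDirections (X : AffSurf) : Prop :=
  ∀ u : ℂ, ‖u‖ = 1 → Nonempty (Chain X u) ∨ Nonempty (Chain X (-u))

theorem Near.mono {X Y : AffSurf} {ι : Type} {e : ι → OpenPartialHomeomorph X.carrier ℂ}
    {K : ι → Set X.carrier} {ε ε' : ℝ} (h : Near X Y e K ε) (hle : ε ≤ ε') : Near X Y e K ε' := by
  obtain ⟨f, e', hh⟩ := h
  exact ⟨f, e', fun i => ⟨(hh i).1, (hh i).2.1, (hh i).2.2.1,
    fun x hx => ((hh i).2.2.2 x hx).trans_le hle⟩⟩

theorem Near.comp {X Y : AffSurf} {ι κ : Type} {e : ι → OpenPartialHomeomorph X.carrier ℂ}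
    {K : ι → Set X.carrier} {ε : ℝ} (h : Near X Y e K ε) (f : κ → ι) :
    Near X Y (fun k => e (f k)) (fun k => K (f k)) ε := by
  obtain ⟨g, e', hh⟩ := h
  exact ⟨g, fun k => e' (f k), fun k => hh (f k)⟩

/-- For every `u₀` on the unit circle there are finite data such that all close surfaces have
closed chains in all directions near `u₀`, up to sign. -/
theorem local_data (X : AffSurf) (hX : AllDirections X) (u₀ : ℂ) (hu₀ : ‖u₀‖ = 1) :
    ∃ (n : ℕ) (e : Fin n → OpenPartialHomeomorph X.carrier ℂ) (K : Fin n → Set X.carrier)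
      (ε : ℝ), 0 < ε ∧ (∀ i, e i ∈ X.atlas ∧ IsCompact (K i) ∧ K i ⊆ (e i).source ∧
        Convex ℝ (e i '' K i)) ∧
      ∀ Y : AffSurf, Near X Y e K ε → ∀ u : ℂ, ‖u - u₀‖ < ε →
        Nonempty (Chain Y u) ∨ Nonempty (Chain Y (-u)) := by
  rcases hX u₀ hu₀ with ⟨⟨C⟩⟩ | ⟨⟨C⟩⟩
  · obtain ⟨K, ε, hε, hK, h⟩ := C.persist
    exact ⟨C.N, fun i => C.e i, K, ε, hε, fun i => ⟨C.mem_atlas i i.2, hK i⟩,
      fun Y hY u hu => Or.inl (h Y hY u hu)⟩
  · obtain ⟨K, ε, hε, hK, h⟩ := C.persist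
    refine ⟨C.N, fun i => C.e i, K, ε, hε, fun i => ⟨C.mem_atlas i i.2, hK i⟩,
      fun Y hY u hu => Or.inr (h Y hY (-u) ?_)⟩
    have : -u - -u₀ = -(u - u₀) := by ring
    rw [this, norm_neg]; exact hu

/-- The set of surfaces with closed chains in all directions is open. -/
theorem global_data (X : AffSurf) (hX : AllDirections X) :
    ∃ (ι : Type) (_ : Finite ι) (e : ι → OpenPartialHomeomorph X.carrier ℂ)
      (K : ι → Set X.carrier) (ε : ℝ), 0 < ε ∧
      (∀ i, e i ∈ X.atlas ∧ IsCompact (K i) ∧ K i ⊆ (e i).source ∧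
        Convex ℝ (e i '' K i)) ∧
      ∀ Y : AffSurf, Near X Y e K ε → AllDirections Y := by
  classical
  have hloc : ∀ v : Metric.sphere (0 : ℂ) 1, ∃ (n : ℕ)
      (e : Fin n → OpenPartialHomeomorph X.carrier ℂ) (K : Fin n → Set X.carrier)
      (ε : ℝ), 0 < ε ∧ (∀ i, e i ∈ X.atlas ∧ IsCompact (K i) ∧ K i ⊆ (e i).source ∧
        Convex ℝ (e i '' K i)) ∧
      ∀ Y : AffSurf, Near X Y e K ε → ∀ u : ℂ, ‖u - v‖ < ε →
        Nonempty (Chain Y u) ∨ Nonempty (Chain Y (-u)) := fun v =>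
    local_data X hX v (by simpa using v.2)
  choose n e K ε hε hK h using hloc
  obtain ⟨t, ht⟩ := (isCompact_univ : IsCompact (univ : Set (Metric.sphere (0 : ℂ) 1))).elim_finite_subcover
    (fun v => Metric.ball v (ε v)) (fun v => Metric.isOpen_ball)
    (fun v _ => mem_iUnion.2 ⟨v, Metric.mem_ball_self (hε v)⟩)
  have hmin : ∃ δ : ℝ, 0 < δ ∧ ∀ v ∈ t, δ ≤ ε v := by
    clear ht
    induction t using Finset.induction_on with
    | empty => exact ⟨1, one_pos, fun v hv => absurd hv (Finset.notMem_empty v)⟩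
    | insert a s ha ih =>
      obtain ⟨δ, hδ, hδ'⟩ := ih
      refine ⟨min δ (ε a), lt_min hδ (hε a), fun v hv => ?_⟩
      rcases Finset.mem_insert.1 hv with rfl | hv
      · exact min_le_right _ _
      · exact (min_le_left _ _).trans (hδ' v hv)
  obtain ⟨δ, hδ, hδ'⟩ := hmin
  refine ⟨Σ v : t, Fin (n v), inferInstance, fun i => e i.1 i.2, fun i => K i.1 i.2, δ, hδ,
    fun i => hK i.1 i.2, ?_⟩
  intro Y hY u hu
  have hu' : (⟨u, by simpa using hu⟩ : Metric.sphere (0 : ℂ) 1) ∈ ⋃ v ∈ t, Metric.ball v (ε v) :=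
    ht (mem_univ _)
  simp only [mem_iUnion, exists_prop] at hu'
  obtain ⟨v, hv, huv⟩ := hu'
  have hnear : Near X Y (e v) (K v) (ε v) :=
    (hY.comp (fun k : Fin (n v) => (⟨⟨v, hv⟩, k⟩ : Σ v : t, Fin (n v)))).mono (hδ' v hv)
  apply h v Y hnear u
  rw [Metric.mem_ball, Subtype.dist_eq, dist_eq_norm] at huv
  exact huv

end Pool.Agent.Lib.MP_ed6522_an
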